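import Pool.Agent.Lib.KTab.Row

/-!
Sums of shifted Chebyshev polynomials with stored coefficients.
-/

open Polynomial Finset

namespace Pool.Agent.Lib.Dy

open Pool.Agent.Lib.KTab

/-- The shifted Chebyshev polynomials. -/
noncomputable def chS (j : ℕ) : ℤ[X] := (Chebyshev.T ℤ j).comp (2 * X - 1)

/-- The polynomial with the stored coefficients. -/
noncomputable def chP (b c z : ℕ) : ℤ[X] := ∑ j ∈ range (c + 1), C (sdig b z j) * chS j

theorem chS_zero : chS 0 = 1 := by simp [chS]

theorem chS_one : chS 1 = 2 * X - 1 := by simp [chS]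

theorem chS_add_two (j : ℕ) : chS (j + 2) = 2 * (2 * X - 1) * chS (j + 1) - chS j := by
  simp only [chS]
  push_cast
  rw [Chebyshev.T_add_two]
  simp

theorem natDegree_chS : ∀ j, (chS j).natDegree ≤ j
  | 0 => by simp [chS_zero]
  | 1 => by rw [chS_one]; compute_degree
  | j + 2 => by
    rw [chS_add_two]
    refine (natDegree_sub_le _ _).trans (max_le ?_ ((natDegree_chS j).trans (by omega)))
    refine natDegree_mul_le.trans ?_
    have h1 : (2 * (2 * X - 1) : ℤ[X]).natDegree ≤ 1 := by compute_degree
    have h2 := natDegree_chS (j + 1)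
    omega

theorem natDegree_chP (b c z : ℕ) : (chP b c z).natDegree ≤ c :=
  natDegree_sum_le_of_forall_le _ _ fun j hj => (natDegree_C_mul_le _ _).trans
    ((natDegree_chS j).trans (by have := mem_range.1 hj; omega))

theorem aeval_chS (j : ℕ) (x : ℝ) : aeval x (chS j) = (Chebyshev.T ℝ j).eval (2 * x - 1) := by
  rw [chS, aeval_comp, Chebyshev.aeval_T]
  simp [map_ofNat]

end Pool.Agent.Lib.Dy
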