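import Mathlib
import Pool.Agent.Lib.KLA.Sound

/-!
Dyadic enclosures of real constants, with side conditions on natural numbers, and the values of the
Gamma function at quarter integers from the Taylor series of the exponential.
-/

open Set MeasureTheory

namespace Pool.Agent.Lib.Dy

open KLA

/-- `A ≤ 2 ^ N x ≤ A + k`. -/
def Enc (N : ℕ) (x : ℝ) (A k : ℕ) : Prop := (A : ℝ) ≤ 2 ^ N * x ∧ 2 ^ N * x ≤ A + k

variable {N A B C k j i : ℕ} {x y : ℝ}

theorem Enc.nonneg (h : Enc N x A k) : 0 ≤ x := by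
  have h1 : (0 : ℝ) ≤ 2 ^ N * x := le_trans (Nat.cast_nonneg A) h.1
  by_contra hx
  have : (2 : ℝ) ^ N * x < 0 := mul_neg_of_pos_of_neg (by positivity) (not_le.1 hx)
  linarith

theorem Enc.abs (h : Enc N x A k) : |2 ^ N * x - A| ≤ k := by
  rw [abs_le]; constructor <;> linarith [h.1, h.2, Nat.cast_nonneg (α := ℝ) k]

theorem Enc.congr (h : Enc N x A k) (e : x = y) : Enc N y A k := e ▸ h

theorem Enc.mono (h : Enc N x A k) (h1 : C ≤ A) (h2 : A + k ≤ C + i) : Enc N x C i := by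
  have h1' : (C : ℝ) ≤ A := by exact_mod_cast h1
  have h2' : (A : ℝ) + k ≤ C + i := by exact_mod_cast h2
  exact ⟨h1'.trans h.1, h.2.trans h2'⟩

theorem Enc.nat (N n : ℕ) : Enc N n (2 ^ N * n) 0 := by
  constructor <;> simp

theorem Enc.one (N : ℕ) : Enc N 1 (2 ^ N) 0 := by
  constructor <;> simp

theorem Enc.add (hx : Enc N x A k) (hy : Enc N y B j) : Enc N (x + y) (A + B) (k + j) := by
  constructor <;> push_cast <;> linarith [hx.1, hx.2, hy.1, hy.2]

theorem Enc.mul (hx : Enc N x A k) (hy : Enc N y B j) (h1 : C * 2 ^ N ≤ A * B)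
    (h2 : (A + k) * (B + j) ≤ (C + i) * 2 ^ N) : Enc N (x * y) C i := by
  have h1' : (C : ℝ) * 2 ^ N ≤ A * B := by exact_mod_cast h1
  have h2' : ((A : ℝ) + k) * (B + j) ≤ (C + i) * 2 ^ N := by exact_mod_cast h2
  have hp : (0 : ℝ) < 2 ^ N := by positivity
  have hx0 : (0 : ℝ) ≤ 2 ^ N * x := mul_nonneg hp.le hx.nonneg
  have hy0 : (0 : ℝ) ≤ 2 ^ N * y := mul_nonneg hp.le hy.nonneg
  have e : (2 : ℝ) ^ N * (x * y) * 2 ^ N = (2 ^ N * x) * (2 ^ N * y) := by ring
  constructor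
  · refine le_of_mul_le_mul_right ?_ hp
    rw [e]
    exact h1'.trans (mul_le_mul hx.1 hy.1 (Nat.cast_nonneg _) hx0)
  · refine le_of_mul_le_mul_right ?_ hp
    rw [e]
    exact (mul_le_mul hx.2 hy.2 hy0 (by positivity)).trans h2'

/-- The quotient, with any number of bits. -/
theorem Enc.div' {M : ℕ} (hx : Enc M x A k) (hy : Enc M y B j) (hB : 0 < B)
    (h1 : C * (B + j) ≤ A * 2 ^ N) (h2 : (A + k) * 2 ^ N ≤ (C + i) * B) : Enc N (x / y) C i := by
  have h1' : (C : ℝ) * (B + j) ≤ A * 2 ^ N := by exact_mod_cast h1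
  have h2' : ((A : ℝ) + k) * 2 ^ N ≤ (C + i) * B := by exact_mod_cast h2
  have hp : (0 : ℝ) < 2 ^ N := by positivity
  have hq : (0 : ℝ) < 2 ^ M := by positivity
  have hB' : (0 : ℝ) < B := by exact_mod_cast hB
  have hy0 : (0 : ℝ) < 2 ^ M * y := hB'.trans_le hy.1
  have hy1 : 0 < y := by
    by_contra h
    have : (2 : ℝ) ^ M * y ≤ 0 := mul_nonpos_of_nonneg_of_nonpos hq.le (not_lt.1 h)
    linarith
  have e : (2 : ℝ) ^ N * (x / y) * (2 ^ M * y) = (2 ^ M * x) * 2 ^ N := by field_simp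
  constructor
  · refine le_of_mul_le_mul_right ?_ hy0
    rw [e]
    exact (mul_le_mul_of_nonneg_left hy.2 (Nat.cast_nonneg _)).trans
      (h1'.trans (mul_le_mul_of_nonneg_right hx.1 hp.le))
  · refine le_of_mul_le_mul_right ?_ hy0
    rw [e]
    exact (mul_le_mul_of_nonneg_right hx.2 hp.le).trans
      (h2'.trans (mul_le_mul_of_nonneg_left hy.1 (by positivity)))

theorem Enc.div (hx : Enc N x A k) (hy : Enc N y B j) (hB : 0 < B) (h1 : C * (B + j) ≤ A * 2 ^ N)
    (h2 : (A + k) * 2 ^ N ≤ (C + i) * B) : Enc N (x / y) C i := hx.div' hy hB h1 h2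

/-- The product, without rounding. -/
theorem Enc.mul' {M : ℕ} (hx : Enc N x A k) (hy : Enc M y B j) :
    Enc (N + M) (x * y) (A * B) ((A + k) * (B + j) - A * B) := by
  have hx0 : (0 : ℝ) ≤ 2 ^ N * x := mul_nonneg (by positivity) hx.nonneg
  have hy0 : (0 : ℝ) ≤ 2 ^ M * y := mul_nonneg (by positivity) hy.nonneg
  have e : (2 : ℝ) ^ (N + M) * (x * y) = (2 ^ N * x) * (2 ^ M * y) := by ring
  constructor
  · rw [e, Nat.cast_mul]
    exact mul_le_mul hx.1 hy.1 (Nat.cast_nonneg _) hx0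
  · rw [e, ← Nat.cast_add, Nat.add_sub_cancel' (by gcongr <;> omega)]
    push_cast
    exact mul_le_mul hx.2 hy.2 hy0 (by positivity)

/-- More bits. -/
theorem Enc.more (hx : Enc N x A k) (d : ℕ) : Enc (N + d) x (A * 2 ^ d) (k * 2 ^ d) := by
  have hp : (0 : ℝ) < 2 ^ d := by positivity
  have e : (2 : ℝ) ^ (N + d) * x = 2 ^ N * x * 2 ^ d := by ring
  constructor <;> rw [e] <;> push_cast
  · exact mul_le_mul_of_nonneg_right hx.1 hp.le
  · rw [← add_mul]; exact mul_le_mul_of_nonneg_right hx.2 hp.le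

theorem Enc.sqrt (hx : Enc N x A k) (h1 : C * C ≤ A * 2 ^ N)
    (h2 : (A + k) * 2 ^ N ≤ (C + i) * (C + i)) : Enc N (√x) C i := by
  have h1' : (C : ℝ) * C ≤ A * 2 ^ N := by exact_mod_cast h1
  have h2' : ((A : ℝ) + k) * 2 ^ N ≤ (C + i) * (C + i) := by exact_mod_cast h2
  have hp : (0 : ℝ) < 2 ^ N := by positivity
  have e : (2 : ℝ) ^ N * √x * (2 ^ N * √x) = (2 ^ N * x) * 2 ^ N := by
    have := Real.mul_self_sqrt hx.nonneg
    linear_combination (2 ^ N * 2 ^ N) * this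
  constructor
  · refine nonneg_le_nonneg_of_sq_le_sq (by positivity) ?_
    rw [e]
    exact h1'.trans (mul_le_mul_of_nonneg_right hx.1 hp.le)
  · refine nonneg_le_nonneg_of_sq_le_sq (by positivity) ?_
    rw [e]
    exact (mul_le_mul_of_nonneg_right hx.2 hp.le).trans h2'

/-- Multiplication by a rational number. -/
theorem Enc.rat {p q : ℕ} (hx : Enc N x A k) (hq : 0 < q) (h1 : C * q ≤ A * p)
    (h2 : (A + k) * p ≤ (C + i) * q) : Enc N (x * p / q) C i := by
  have h1' : (C : ℝ) * q ≤ A * p := by exact_mod_cast h1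
  have h2' : ((A : ℝ) + k) * p ≤ (C + i) * q := by exact_mod_cast h2
  have hq' : (0 : ℝ) < q := by exact_mod_cast hq
  have e : (2 : ℝ) ^ N * (x * p / q) * q = (2 ^ N * x) * p := by field_simp
  constructor
  · refine le_of_mul_le_mul_right ?_ hq'
    rw [e]
    exact h1'.trans (mul_le_mul_of_nonneg_right hx.1 (Nat.cast_nonneg _))
  · refine le_of_mul_le_mul_right ?_ hq'
    rw [e]
    exact (mul_le_mul_of_nonneg_right hx.2 (Nat.cast_nonneg _)).trans h2'

/-- Multiplication by a rational number, rounded down. -/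
theorem Enc.ratDiv {p q : ℕ} (hx : Enc N x A k) (hq : 0 < q) (h : k * p ≤ i * q) :
    Enc N (x * p / q) (A * p / q) (i + 1) := by
  refine hx.rat hq (Nat.div_mul_le_self _ _) ?_
  have := Nat.lt_div_mul_add (a := A * p) hq
  nlinarith

/-- Fewer bits. -/
theorem Enc.drop {d : ℕ} (hx : Enc (N + d) x A k) (h1 : C * 2 ^ d ≤ A)
    (h2 : A + k ≤ (C + i) * 2 ^ d) : Enc N x C i := by
  have h1' : (C : ℝ) * 2 ^ d ≤ A := by exact_mod_cast h1
  have h2' : (A : ℝ) + k ≤ (C + i) * 2 ^ d := by exact_mod_cast h2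
  have hp : (0 : ℝ) < 2 ^ d := by positivity
  have e : (2 : ℝ) ^ N * x * 2 ^ d = 2 ^ (N + d) * x := by ring
  constructor
  · refine le_of_mul_le_mul_right ?_ hp
    rw [e]; exact h1'.trans hx.1
  · refine le_of_mul_le_mul_right ?_ hp
    rw [e]; exact hx.2.trans h2'

theorem Enc.shift {d : ℕ} (hx : Enc (N + d) x A k) (h : k ≤ 2 ^ d) : Enc N x (A / 2 ^ d) 2 := by
  have hp : 0 < 2 ^ d := by positivity
  refine hx.drop (Nat.div_mul_le_self _ _) ?_
  have := Nat.lt_div_mul_add (a := A) hp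
  nlinarith

theorem exp_neg_taylor {t X : ℝ} (ht : 0 ≤ t) (htX : t ≤ X) {K : ℕ} (hK : 2 * X ≤ K + 1) :
    |Real.exp (-t) - ∑ k ∈ Finset.range K, (-t) ^ k / k.factorial| ≤ X ^ K / K.factorial * 2 := by
  have h := Complex.exp_bound' (x := ((-t : ℝ) : ℂ)) (n := K) (by
    rw [Complex.norm_real, norm_neg, Real.norm_of_nonneg ht, div_le_iff₀ (by positivity)]
    push_cast; linarith)
  have e : Complex.exp ((-t : ℝ) : ℂ) - ∑ m ∈ Finset.range K, ((-t : ℝ) : ℂ) ^ m / m.factorial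
      = ((Real.exp (-t) - ∑ k ∈ Finset.range K, (-t) ^ k / k.factorial : ℝ) : ℂ) := by
    push_cast; rfl
  rw [e, Complex.norm_real, Complex.norm_real, norm_neg, Real.norm_of_nonneg ht,
    Real.norm_eq_abs] at h
  refine h.trans ?_
  gcongr

theorem gamma_approx {s X : ℝ} (hs : 0 < s) (hs1 : s ≤ 1) (hX : 1 ≤ X) {K : ℕ}
    (hK : 2 * X ≤ K + 1) :
    |Real.Gamma s - X ^ s * ∑ k ∈ Finset.range K, (-X) ^ k / (k.factorial * (s + k))|
      ≤ Real.exp (-X) + X ^ s / s * (X ^ K / K.factorial * 2) := by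
  have hX0 : 0 < X := by linarith
  have hI := Real.GammaIntegral_convergent hs
  have hU : Ioc 0 X ∪ Ioi X = Ioi 0 := Ioc_union_Ioi_eq_Ioi hX0.le
  have hI1 : IntegrableOn (fun x : ℝ => Real.exp (-x) * x ^ (s - 1)) (Ioc 0 X) :=
    hI.mono_set Ioc_subset_Ioi_self
  have hI2 : IntegrableOn (fun x : ℝ => Real.exp (-x) * x ^ (s - 1)) (Ioi X) :=
    hI.mono_set (Ioi_subset_Ioi hX0.le)
  rw [Real.Gamma_eq_integral hs, ← hU, setIntegral_union Ioc_disjoint_Ioi_same measurableSet_Ioi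
    hI1 hI2, ← intervalIntegral.integral_of_le hX0.le]
  have t0 : 0 ≤ ∫ x in Ioi X, Real.exp (-x) * x ^ (s - 1) :=
    setIntegral_nonneg measurableSet_Ioi fun x hx =>
      mul_nonneg (Real.exp_pos _).le (Real.rpow_nonneg (hX0.trans hx).le _)
  have t1 : ∫ x in Ioi X, Real.exp (-x) * x ^ (s - 1) ≤ Real.exp (-X) := by
    rw [← integral_exp_neg_Ioi]
    refine setIntegral_mono_on hI2 (integrableOn_exp_neg_Ioi X) measurableSet_Ioi fun x hx => ?_
    refine mul_le_of_le_one_right (Real.exp_pos _).le ?_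
    exact Real.rpow_le_one_of_one_le_of_nonpos (hX.trans (le_of_lt hx)) (by linarith)
  have ri : ∀ k : ℕ, IntervalIntegrable (fun x : ℝ => x ^ (s - 1 + k)) volume 0 X := fun k =>
    intervalIntegral.intervalIntegrable_rpow' (by linarith [Nat.cast_nonneg (α := ℝ) k])
  have rv : ∀ k : ℕ, ∫ x in (0 : ℝ)..X, x ^ (s - 1 + k) = X ^ s * X ^ k / (s + k) := fun k => by
    have hk : (0 : ℝ) ≤ k := Nat.cast_nonneg k
    rw [integral_rpow (Or.inl (by linarith)), show s - 1 + k + 1 = s + k by ring,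
      Real.zero_rpow (by linarith), Real.rpow_add hX0, Real.rpow_natCast, sub_zero]
  have e1 : X ^ s * ∑ k ∈ Finset.range K, (-X) ^ k / (k.factorial * (s + k))
      = ∫ x in (0 : ℝ)..X, ∑ k ∈ Finset.range K, (-1) ^ k / k.factorial * x ^ (s - 1 + k) := by
    rw [intervalIntegral.integral_finsetSum fun k _ => (ri k).const_mul _, Finset.mul_sum]
    refine Finset.sum_congr rfl fun k _ => ?_
    rw [intervalIntegral.integral_const_mul, rv, neg_pow]
    have hk : (0 : ℝ) < s + k := by positivity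
    field_simp
  have i1 : IntervalIntegrable (fun x : ℝ => Real.exp (-x) * x ^ (s - 1)) volume 0 X :=
    (intervalIntegrable_iff_integrableOn_Ioc_of_le hX0.le).2 hI1
  have i2 : IntervalIntegrable (fun x : ℝ =>
      ∑ k ∈ Finset.range K, (-1) ^ k / (k.factorial : ℝ) * x ^ (s - 1 + k)) volume 0 X := by
    have := IntervalIntegrable.sum (Finset.range K) fun k _ =>
      (ri k).const_mul ((-1) ^ k / (k.factorial : ℝ))
    rw [← Finset.sum_fn] at *
    exact this
  have t2 : |(∫ x in (0 : ℝ)..X, Real.exp (-x) * x ^ (s - 1)) - ∫ x in (0 : ℝ)..X,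
      ∑ k ∈ Finset.range K, (-1) ^ k / (k.factorial : ℝ) * x ^ (s - 1 + k)|
      ≤ X ^ s / s * (X ^ K / K.factorial * 2) := by
    rw [← intervalIntegral.integral_sub i1 i2, ← Real.norm_eq_abs]
    have b := intervalIntegral.norm_integral_le_of_norm_le (μ := volume) hX0.le
      (f := fun x : ℝ => Real.exp (-x) * x ^ (s - 1) -
        ∑ k ∈ Finset.range K, (-1) ^ k / (k.factorial : ℝ) * x ^ (s - 1 + k))
      (g := fun x : ℝ => (X ^ K / K.factorial * 2) * x ^ (s - 1 + (0 : ℕ)))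
      (Filter.Eventually.of_forall fun x hx => by
        have e : Real.exp (-x) * x ^ (s - 1) -
            ∑ k ∈ Finset.range K, (-1) ^ k / (k.factorial : ℝ) * x ^ (s - 1 + k)
            = (Real.exp (-x) - ∑ k ∈ Finset.range K, (-x) ^ k / k.factorial) * x ^ (s - 1) := by
          rw [sub_mul, Finset.sum_mul]
          congr 1
          refine Finset.sum_congr rfl fun k _ => ?_
          rw [Real.rpow_add hx.1, Real.rpow_natCast, neg_pow x]
          ring
        rw [e, norm_mul, Real.norm_eq_abs, Real.norm_of_nonneg (Real.rpow_nonneg hx.1.le _)]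
        simp only [Nat.cast_zero, add_zero]
        exact mul_le_mul_of_nonneg_right (exp_neg_taylor hx.1.le hx.2 hK)
          (Real.rpow_nonneg hx.1.le _)) ((ri 0).const_mul _)
    refine b.trans (le_of_eq ?_)
    rw [intervalIntegral.integral_const_mul, rv]
    simp only [pow_zero, Nat.cast_zero, add_zero, mul_one]
    ring
  rw [e1]
  rw [abs_le] at t2 ⊢
  constructor <;> linarith [t2.1, t2.2, Real.exp_pos (-X)]

/-- The alternating sum of `num 2 ^ s / (den (4 k + m))`, where `num` is multiplied by `X` and `den`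
by `k + 1` in each step; the state holds `den + k`. -/
noncomputable def gloop (X m s : ℕ) (fin : ℕ → ℕ → ℕ → ℕ → Bool) (n : ℕ) :
    ℕ → ℕ → ℕ → ℕ → ℕ → Bool :=
  Nat.rec (motive := fun _ => ℕ → ℕ → ℕ → ℕ → ℕ → Bool)
    (fun k num den p q => fin (Nat.shiftLeft num s) (Nat.sub den k) p q)
    (fun _ ih k num den p q => strict (Nat.add k 1) fun k1 => strict (Nat.mul num X) fun num1 =>
      strict (Nat.add (Nat.mul (Nat.sub den k) k1) k1) fun den1 =>
      strict (Nat.add p (Nat.div (Nat.shiftLeft num s)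
        (Nat.mul (Nat.sub den k) (Nat.add (Nat.mul 4 k) m)))) fun p1 =>
      ih k1 num1 den1 q p1) n

theorem gloop_spec {X m s c0 c : ℕ} (hm : 0 < m) (hc : c = c0 * 2 ^ s)
    {fin : ℕ → ℕ → ℕ → ℕ → Bool} :
    ∀ (n k p q : ℕ), gloop X m s fin n k (c0 * X ^ k) (k.factorial + k) p q = true →
      |(-1) ^ k * ∑ j ∈ Finset.range k, (c : ℝ) * (-X) ^ j / (j.factorial * (4 * j + m))
        - (p - q)| ≤ k →
      ∃ p q : ℕ, fin (c * X ^ (k + n)) (k + n).factorial p q = true ∧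
        |(-1) ^ (k + n) * ∑ j ∈ Finset.range (k + n),
          (c : ℝ) * (-X) ^ j / (j.factorial * (4 * j + m)) - (p - q)| ≤ (k + n : ℕ)
  | 0, k, p, q, h, h' => by
    have h1 : fin ((c0 * X ^ k) <<< s) (k.factorial + k - k) p q = true := h
    rw [Nat.shiftLeft_eq, Nat.add_sub_cancel, mul_right_comm, ← hc] at h1
    exact ⟨p, q, h1, h'⟩
  | n + 1, k, p, q, h, h' => by
    have h1 : gloop X m s fin n (k + 1) (c0 * X ^ k * X)
        ((k.factorial + k - k) * (k + 1) + (k + 1)) q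
        (p + (c0 * X ^ k) <<< s / ((k.factorial + k - k) * (4 * k + m))) = true := h
    rw [Nat.shiftLeft_eq, Nat.add_sub_cancel, mul_right_comm c0 _ (2 ^ s), ← hc, mul_assoc,
      ← pow_succ, mul_comm k.factorial (k + 1), ← Nat.factorial_succ] at h1
    rw [show k + (n + 1) = k + 1 + n by ring]
    refine gloop_spec hm hc n (k + 1) _ _ h1 ?_
    have hd : 0 < k.factorial * (4 * k + m) := by positivity
    have a1 : ((c * X ^ k / (k.factorial * (4 * k + m)) : ℕ) : ℝ)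
        ≤ (c : ℝ) * X ^ k / (k.factorial * (4 * k + m)) := by
      refine Nat.cast_div_le.trans (le_of_eq ?_)
      push_cast; rfl
    have a2 : (c : ℝ) * X ^ k / (k.factorial * (4 * k + m))
        ≤ ((c * X ^ k / (k.factorial * (4 * k + m)) : ℕ) : ℝ) + 1 := by
      rw [div_le_iff₀ (by exact_mod_cast hd)]
      have := (Nat.lt_div_mul_add (a := c * X ^ k) hd).le
      have h3 : c * X ^ k ≤ (c * X ^ k / (k.factorial * (4 * k + m)) + 1)
          * (k.factorial * (4 * k + m)) := by linarith [this]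
      exact_mod_cast h3
    have e : (-1 : ℝ) ^ k * ((c : ℝ) * (-X) ^ k / (k.factorial * (4 * k + m)))
        = (c : ℝ) * X ^ k / (k.factorial * (4 * k + m)) := by
      rw [neg_pow (X : ℝ)]
      have : ((-1 : ℝ) ^ k) * (-1) ^ k = 1 := by rw [← mul_pow]; simp
      linear_combination ((c : ℝ) * X ^ k / (k.factorial * (4 * k + m))) * this
    rw [Finset.sum_range_succ, pow_succ]
    push_cast
    rw [abs_le] at h' ⊢
    constructor <;> nlinarith [h'.1, h'.2]

/-- The check of an enclosure of `Γ (m / 4)`. -/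
noncomputable def gchk (z m K N d A : ℕ) : Bool :=
  gloop (Nat.pow z 4) m (Nat.add N d) (fun num den p q => bnd (Nat.ble (Nat.mul 2 num) den)
    (bnd (Nat.ble (Nat.add (Nat.add (Nat.shiftLeft A d) (Nat.add K 2)) q) p)
      (Nat.ble (Nat.add p (Nat.add K 2)) (Nat.add q (Nat.shiftLeft (Nat.add A 1) d)))))
    K 0 (Nat.mul 4 (Nat.pow z m)) 1 0 0

theorem gchk_spec {z m K N d A : ℕ} (hm : 0 < m) (hm4 : m ≤ 4) (hz : 0 < z) (hK : K % 2 = 0)
    (hK' : 2 * z ^ 4 ≤ K + 1) (hX : 2 ^ (N + d) * 10 ^ z ^ 4 ≤ 27 ^ z ^ 4)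
    (h : gchk z m K N d A = true) : Enc N (Real.Gamma (m / 4)) A 1 := by
  have h0 : gloop (z ^ 4) m (N + d) (fun num den p q => bnd (Nat.ble (2 * num) den)
      (bnd (Nat.ble (A <<< d + (K + 2) + q) p) (Nat.ble (p + (K + 2)) (q + (A + 1) <<< d))))
      K 0 (4 * z ^ m) 1 0 0 = true := h
  simp only [Nat.shiftLeft_eq] at h0
  obtain ⟨p, q, h1, h2⟩ := gloop_spec (X := z ^ 4) (c0 := 4 * z ^ m) (s := N + d)
    (c := 4 * z ^ m * 2 ^ (N + d)) hm rfl K 0 0 0
    (by simpa using h0) (by simp)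
  simp only [bnd_iff, Nat.ble_eq, zero_add] at h1 h2
  obtain ⟨h3, h4, h5⟩ := h1
  rw [Even.neg_one_pow (Nat.even_iff.2 hK), one_mul] at h2
  have hz' : (1 : ℝ) ≤ z := by exact_mod_cast hz
  have hm' : (1 : ℝ) ≤ m := by exact_mod_cast hm
  have hm4' : (m : ℝ) ≤ 4 := by exact_mod_cast hm4
  have g := gamma_approx (s := m / 4) (X := ((z ^ 4 : ℕ) : ℝ)) (by positivity) (by linarith)
    (by exact_mod_cast Nat.one_le_pow _ _ hz) (K := K) (by exact_mod_cast hK')
  have e1 : ((z ^ 4 : ℕ) : ℝ) ^ ((m : ℝ) / 4) = z ^ m := by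
    rw [Nat.cast_pow, ← Real.rpow_natCast (z : ℝ) 4, ← Real.rpow_mul (by linarith),
      ← Real.rpow_natCast]
    congr 1; push_cast; ring
  rw [e1] at g
  have hp : (0 : ℝ) < 2 ^ (N + d) := by positivity
  have e2 : ∑ j ∈ Finset.range K, ((4 * z ^ m * 2 ^ (N + d) : ℕ) : ℝ) * (-((z ^ 4 : ℕ) : ℝ)) ^ j
      / (j.factorial * (4 * j + m)) = 2 ^ (N + d) * ((z : ℝ) ^ m * ∑ k ∈ Finset.range K,
        (-((z ^ 4 : ℕ) : ℝ)) ^ k / (k.factorial * (m / 4 + k))) := by
    rw [Finset.mul_sum, Finset.mul_sum]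
    refine Finset.sum_congr rfl fun k _ => ?_
    have : (0 : ℝ) < m / 4 + k := by positivity
    push_cast
    field_simp
    ring
  rw [e2] at h2
  have b1 : 2 ^ (N + d) * Real.exp (-((z ^ 4 : ℕ) : ℝ)) ≤ 1 := by
    have h6 : (2 : ℝ) ^ (N + d) * 10 ^ z ^ 4 ≤ 27 ^ z ^ 4 := by exact_mod_cast hX
    have h7 : ((27 : ℝ) / 10) ^ z ^ 4 ≤ Real.exp ((z ^ 4 : ℕ) : ℝ) := by
      rw [← Real.exp_one_pow]
      exact pow_le_pow_left₀ (by norm_num) (by linarith [Real.exp_one_gt_d9]) _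
    rw [div_pow, div_le_iff₀ (by positivity)] at h7
    rw [Real.exp_neg, ← div_eq_mul_inv, div_le_one (Real.exp_pos _)]
    exact le_of_mul_le_mul_right (h6.trans h7) (by positivity)
  have b2 : (2 : ℝ) ^ (N + d) * ((z : ℝ) ^ m / (m / 4) * (((z ^ 4 : ℕ) : ℝ) ^ K / K.factorial * 2))
      ≤ 1 := by
    have h6 : (2 : ℝ) * (4 * z ^ m * 2 ^ (N + d) * ((z ^ 4 : ℕ) : ℝ) ^ K) ≤ K.factorial := by
      exact_mod_cast h3
    have e : (2 : ℝ) ^ (N + d) * ((z : ℝ) ^ m / (m / 4) * (((z ^ 4 : ℕ) : ℝ) ^ K / K.factorial * 2))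
        = 2 * (4 * z ^ m * 2 ^ (N + d) * ((z ^ 4 : ℕ) : ℝ) ^ K) / K.factorial / m := by
      field_simp
    rw [e, div_le_one (by positivity)]
    exact ((div_le_one (by positivity)).2 h6).trans hm'
  have h4' : (A : ℝ) * 2 ^ d + (K + 2) + q ≤ p := by exact_mod_cast h4
  have h5' : (p : ℝ) + (K + 2) ≤ q + (A + 1) * 2 ^ d := by exact_mod_cast h5
  have g1 := mul_le_mul_of_nonneg_left (abs_le.1 g).1 hp.le
  have g2 := mul_le_mul_of_nonneg_left (abs_le.1 g).2 hp.le
  rw [abs_le] at h2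
  have E : Enc (N + d) (Real.Gamma (m / 4)) (A * 2 ^ d) (2 ^ d) := by
    constructor <;> push_cast <;> nlinarith [h2.1, h2.2]
  exact E.drop le_rfl (le_of_eq (by ring))

end Pool.Agent.Lib.Dy
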