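import Pool.Agent.Lib.Dy.Enc
import Pool.Agent.Lib.Dy.Lit

/-!
Enclosures of `Γ (1 / 4)`, `Γ (1 / 2)`, `Γ (3 / 4)`, `π`, `√2`, and the Gamma function at quarter
integers.
-/

open scoped Real

namespace Pool.Agent.Lib.Dy

/-- The Gamma function at quarter integers. -/
noncomputable def gq (m : ℕ) : ℝ := Real.Gamma (m / 4)

theorem gq_pos {m : ℕ} (hm : 0 < m) : 0 < gq m := Real.Gamma_pos_of_pos (by positivity)

theorem gq_add_four {m : ℕ} (hm : 0 < m) : gq (m + 4) = m / 4 * gq m := by
  rw [gq, gq, ← Real.Gamma_add_one (by positivity)]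
  congr 1; push_cast; ring

theorem gq_four : gq 4 = 1 := by simp [gq]

theorem gq_two : gq 2 = √π := by
  rw [gq, ← Real.Gamma_one_half_eq]; congr 1; norm_num

theorem pr4_pos {a : ℕ} (ha : 0 < a) : ∀ n, 0 < pr4 a n
  | 0 => Nat.one_pos
  | n + 1 => Nat.mul_pos (pr4_pos ha n) (by omega)

theorem gq_add_mul {m : ℕ} (hm : 0 < m) : ∀ n : ℕ, gq (m + 4 * n) = gq m * pr4 m n / 4 ^ n
  | 0 => by simp [pr4]
  | n + 1 => by
    rw [show m + 4 * (n + 1) = m + 4 * n + 4 by ring, gq_add_four (by omega), gq_add_mul hm n, pr4]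
    push_cast; field_simp; ring

theorem gamma_eq_gq {x : ℝ} (m : ℕ) (h : x = m / 4) : Real.Gamma x = gq m := by rw [h, gq]

theorem enc_g1 : Enc 3072 (gq 1) cG1 1 :=
  gchk_spec (z := 7) (K := 8500) (d := 32) (by decide) (by decide) (by decide) (by decide)
    (by decide) (by decide +kernel) (by decide +kernel)

theorem enc_g2 : Enc 3072 (gq 2) cG2 1 :=
  gchk_spec (z := 7) (K := 8500) (d := 32) (by decide) (by decide) (by decide) (by decide)
    (by decide) (by decide +kernel) (by decide +kernel)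

theorem enc_g3 : Enc 3072 (gq 3) cG3 1 :=
  gchk_spec (z := 7) (K := 8500) (d := 32) (by decide) (by decide) (by decide) (by decide)
    (by decide) (by decide +kernel) (by decide +kernel)

theorem enc_i1 : Enc 3072 (1 / gq 1) cI1 1 :=
  (Enc.one _).div enc_g1 (by decide +kernel) (by decide +kernel) (by decide +kernel)

theorem enc_i2 : Enc 3072 (1 / gq 2) cI2 2 :=
  (Enc.one _).div enc_g2 (by decide +kernel) (by decide +kernel) (by decide +kernel)

theorem enc_i3 : Enc 3072 (1 / gq 3) cI3 2 :=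
  (Enc.one _).div enc_g3 (by decide +kernel) (by decide +kernel) (by decide +kernel)

theorem enc_pi : Enc 3072 π cPI 4 :=
  (enc_g2.mul enc_g2 (by decide +kernel) (by decide +kernel)).congr
    (by rw [gq_two, Real.mul_self_sqrt Real.pi_pos.le])

theorem enc_s2 : Enc 3072 (√2) cS2 1 :=
  ((Enc.nat 3072 2).sqrt (by decide +kernel) (by decide +kernel)).congr (by norm_num)

theorem enc_q2 : Enc 3072 (√(√2)) cQ2 1 := enc_s2.sqrt (by decide +kernel) (by decide +kernel)

theorem enc_r12 : Enc 3072 (gq 1 / gq 2) cR12 3 :=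
  enc_g1.div enc_g2 (by decide +kernel) (by decide +kernel) (by decide +kernel)

theorem enc_r13 : Enc 3072 (gq 1 / gq 3) cR13 4 :=
  enc_g1.div enc_g3 (by decide +kernel) (by decide +kernel) (by decide +kernel)

theorem enc_r21 : Enc 3072 (gq 2 / gq 1) cR21 2 :=
  enc_g2.div enc_g1 (by decide +kernel) (by decide +kernel) (by decide +kernel)

theorem enc_r23 : Enc 3072 (gq 2 / gq 3) cR23 3 :=
  enc_g2.div enc_g3 (by decide +kernel) (by decide +kernel) (by decide +kernel)

theorem enc_r31 : Enc 3072 (gq 3 / gq 1) cR31 1 :=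
  enc_g3.div enc_g1 (by decide +kernel) (by decide +kernel) (by decide +kernel)

theorem enc_r32 : Enc 3072 (gq 3 / gq 2) cR32 2 :=
  enc_g3.div enc_g2 (by decide +kernel) (by decide +kernel) (by decide +kernel)

theorem enc_l0 : Enc 3072 (gq 9 / gq 3) cL0 2 :=
  (enc_r13.rat (p := 5) (q := 16) (by decide) (by decide +kernel) (by decide +kernel)).congr (by
    rw [gq_add_mul (m := 1) Nat.one_pos 2]
    simp only [pr4]
    push_cast; ring)

theorem enc_cG {r : ℕ} (h : r < 4) : Enc 3072 (gq (r + 1)) (cG ((r + 1) % 4)) 1 := by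
  interval_cases r
  · exact enc_g1
  · exact enc_g2
  · exact enc_g3
  · exact ((Enc.one 3072).congr gq_four.symm).mono (by decide +kernel) (by decide +kernel)

theorem enc_gq {m : ℕ} (hm : 0 < m) : Enc 3072 (gq m) (gLo m) (gEr m) := by
  have e : m = (m - 1) % 4 + 1 + 4 * ((m - 1) / 4) := by omega
  have e' : m % 4 = ((m - 1) % 4 + 1) % 4 := by omega
  have h := (enc_cG (r := (m - 1) % 4) (Nat.mod_lt _ (by norm_num))).ratDiv
    (p := pr4 ((m - 1) % 4 + 1) ((m - 1) / 4)) (q := 4 ^ ((m - 1) / 4))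
    (i := pr4 ((m - 1) % 4 + 1) ((m - 1) / 4) / 4 ^ ((m - 1) / 4) + 1) (by positivity) (by
      rw [one_mul, add_mul, one_mul]
      exact (Nat.lt_div_mul_add (by positivity)).le)
  rw [gLo, gEr, e']
  refine h.congr ?_
  conv_rhs => rw [e, gq_add_mul (by omega)]
  push_cast; rfl

end Pool.Agent.Lib.Dy
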