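import Pool.Agent.Lib.KTab.Defs
import Pool.Agent.Lib.Dy.Lit

/-!
Upper bounds for sums of weighted Hankel forms in the monomial coefficients of Chebyshev sums,
written so that the kernel evaluates them fast.
-/

namespace Pool.Agent.Lib.Dy

open Pool.Agent.Lib.KLA Pool.Agent.Lib.KTab

noncomputable section

/-- `u p / q`. -/
def nx (p q u : Nat) : Nat := Nat.div (Nat.mul u p) q

/-- Four steps `u r * (p + r) / (q + r)`. -/
def win (p q u0 u1 u2 u3 : Nat) (k : Nat → Nat → Nat → Nat → Bool) : Bool :=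
  strict (nx p q u0) fun v0 => strict (nx (Nat.add p 1) (Nat.add q 1) u1) fun v1 =>
    strict (nx (Nat.add p 2) (Nat.add q 2) u2) fun v2 =>
    strict (nx (Nat.add p 3) (Nat.add q 3) u3) fun v3 => k v0 v1 v2 v3

/-- Four steps `u r * p / (q + r)`. -/
def wip (p q u0 u1 u2 u3 : Nat) (k : Nat → Nat → Nat → Nat → Bool) : Bool :=
  strict (nx p q u0) fun v0 => strict (nx p (Nat.add q 1) u1) fun v1 =>
    strict (nx p (Nat.add q 2) u2) fun v2 => strict (nx p (Nat.add q 3) u3) fun v3 => k v0 v1 v2 v3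

/-- `((d - 2 ^ w) u + K) / 2 ^ r`. -/
def el (w K r d u : Nat) : Nat :=
  Nat.shiftRight (Nat.sub (Nat.add (Nat.mul d u) K) (Nat.shiftLeft u w)) r

/-- Four entries. -/
def blk (W w K r S y u0 u1 u2 u3 : Nat) : Nat :=
  Nat.add (Nat.add (el w K r (Nat.land y (low W)) u0)
      (Nat.shiftLeft (el w K r (Nat.land (Nat.shiftRight y W) (low W)) u1) S))
    (Nat.shiftLeft (Nat.add (el w K r (Nat.land (Nat.shiftRight y (Nat.mul W 2)) (low W)) u2)
      (Nat.shiftLeft (el w K r (Nat.land (Nat.shiftRight y (Nat.mul W 3)) (low W)) u3) S))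
      (Nat.mul S 2))

/-- The sum over `j < 16 n` of `el (digit j of y) (u j) * 2 ^ (S j)`, where
`u (j + 4) = u j * (p + j) / (q + j)`; the four values after the last are at most `U`. -/
def run (W w K r S U n : Nat) : Nat → Nat → Nat → Nat → Nat → Nat → Nat → (Nat → Bool) → Bool :=
  Nat.rec (motive := fun _ => Nat → Nat → Nat → Nat → Nat → Nat → Nat → (Nat → Bool) → Bool)
    (fun _ _ u0 u1 u2 u3 _ k => bnd (bnd (bnd (Nat.ble u0 U) (Nat.ble u1 U))
      (bnd (Nat.ble u2 U) (Nat.ble u3 U))) (k 0))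
    (fun _ ih p q u0 u1 u2 u3 y k => strict p fun p => strict q fun q =>
      win p q u0 u1 u2 u3 fun a0 a1 a2 a3 =>
      win (Nat.add p 4) (Nat.add q 4) a0 a1 a2 a3 fun b0 b1 b2 b3 =>
      win (Nat.add p 8) (Nat.add q 8) b0 b1 b2 b3 fun c0 c1 c2 c3 =>
      win (Nat.add p 12) (Nat.add q 12) c0 c1 c2 c3 fun d0 d1 d2 d3 =>
      ih (Nat.add p 16) (Nat.add q 16) d0 d1 d2 d3 (Nat.shiftRight y (Nat.mul W 16)) fun R =>
      (fun z : Nat => k (Nat.add (Nat.add
        (Nat.add (blk W w K r S (Nat.land z (low (Nat.mul W 4))) u0 u1 u2 u3)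
          (Nat.shiftLeft (blk W w K r S (Nat.land (Nat.shiftRight z (Nat.mul W 4))
            (low (Nat.mul W 4))) a0 a1 a2 a3) (Nat.mul S 4)))
        (Nat.shiftLeft (Nat.add (blk W w K r S (Nat.land (Nat.shiftRight z (Nat.mul W 8))
            (low (Nat.mul W 4))) b0 b1 b2 b3)
          (Nat.shiftLeft (blk W w K r S (Nat.shiftRight z (Nat.mul W 12)) c0 c1 c2 c3)
            (Nat.mul S 4))) (Nat.mul S 8)))
        (Nat.shiftLeft R (Nat.mul S 16)))) (Nat.land y (low (Nat.mul W 16)))) n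

/-- The size of a stored coefficient. -/
def adg (b z j : Nat) : Nat :=
  Nat.add (Nat.sub (dgt (Nat.add b 1) z j) (Nat.shiftLeft 1 b))
    (Nat.sub (Nat.shiftLeft 1 b) (dgt (Nat.add b 1) z j))

/-- A bound for the monomial coefficients. -/
def bet (b z c : Nat) : Nat → Nat → Nat :=
  Nat.rec (motive := fun _ => Nat → Nat → Nat)
    (fun x y => Nat.add (Nat.add (adg b z 0) (Nat.mul 3 x)) y)
    (fun j ih x y => strict (Nat.add (Nat.add (adg b z (Nat.add j 1)) (Nat.mul 6 x)) y) fun u =>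
      ih u x) c

/-- The value of a Chebyshev sum at `Z`. -/
def cl (b z Z c : Nat) : Bool → Nat → Bool → Nat → (Bool → Nat → Bool) → Bool :=
  Nat.rec (motive := fun _ => Bool → Nat → Bool → Nat → (Bool → Nat → Bool) → Bool)
    (fun g1 a1 g2 a2 k => ssub (dgt (Nat.add b 1) z 0) (Nat.shiftLeft 1 b) fun gp ap =>
      sadd g1 (Nat.mul a1 Z) (nt g2) a2 fun g a => sadd g a gp ap k)
    (fun j ih g1 a1 g2 a2 k =>
      ssub (dgt (Nat.add b 1) z (Nat.add j 1)) (Nat.shiftLeft 1 b) fun gp ap =>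
      sadd g1 (Nat.mul a1 (Nat.mul 2 Z)) (nt g2) a2 fun g a => sadd g a gp ap fun g a =>
      ih g a g1 a1 k) c

/-- The packed products of the monomial coefficients with the weights. -/
def side (b c z w n N ub r S e t u0 u1 u2 u3 : Nat) (k : Bool → Nat → Bool) : Bool :=
  strict (Nat.add w 2) fun W => strict (Nat.add N ub) fun Nu => strict (Nat.add w Nu) fun kk =>
    cl b z (low (Nat.add W 1)) c false 0 false 0 fun g a =>
    off g a (ofs W (Nat.mul 16 n) w) fun y =>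
    run W w (Nat.shiftLeft 1 kk) r S (Nat.shiftLeft 1 Nu) n (Nat.add e t) e u0 u1 u2 u3 y fun X =>
    ssub X (ofs S (Nat.mul 16 n) (Nat.sub kk r)) k

/-- The number of bits of the largest weight. -/
def ubar (t m : Nat) : Nat :=
  Nat.add (Nat.div (Nat.mul t (Nat.sub (Nat.log2 (Nat.add m t)) 1)) 4) 1

/-- The error of the entries. -/
def erx (w ub r m : Nat) : Nat :=
  Nat.add (Nat.shiftRight (Nat.shiftLeft m (Nat.add (Nat.add w ub) 1)) r) 2

/-- The error of the form. -/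
def erf (n n' x x' E E' M d : Nat) : Nat :=
  Nat.mul (Nat.mul n n') (Nat.sub
    (Nat.mul (Nat.mul (Nat.add (Nat.shiftLeft 1 x) E) (Nat.add (Nat.shiftLeft 1 x') E'))
      (Nat.add M d))
    (Nat.mul (Nat.mul (Nat.shiftLeft 1 x) (Nat.shiftLeft 1 x')) M))

/-- The product of the two packed vectors and its sum against the moments. -/
def rest (N P q wp wq m0 m1 m2 m3 h n G Er : Nat) (k : Nat → Nat → Bool) (gA : Bool) (aA : Nat)
    (gB : Bool) (aB : Nat) : Bool :=
  strict (Nat.add h 2) fun S =>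
    off (bx gA gB) (Nat.mul aA aB) (ofs S (Nat.mul 16 n) h) fun y =>
    run S h (Nat.shiftLeft 1 (Nat.add h (Nat.add N 1))) 0 0 (Nat.shiftLeft 1 (Nat.add N 1)) n
      q (Nat.add P q) m0 m1 m2 m3 y fun T =>
    k (Nat.add (Nat.div (Nat.mul (Nat.add T Er) wp) (Nat.shiftLeft wq G)) 1)
      (Nat.div (Nat.mul (Nat.shiftLeft (Nat.mul 16 n) (Nat.add h (Nat.add N 1))) wp)
        (Nat.shiftLeft wq G))

/-- `core` with the sizes given. -/
def cor2 (same : Bool) (N t bA cA zA eA bB cB zB eB P q wp wq u0 u1 u2 u3 v0 v1 v2 v3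
    m0 m1 m2 m3 wA wB nA nB uA uB rA rB xA xB h : Nat) (k : Nat → Nat → Bool) : Bool :=
  strict (Nat.add eA (Nat.mul 16 nA)) fun mA => strict (Nat.add eB (Nat.mul 16 nB)) fun mB =>
  strict (Nat.add h 2) fun S => strict (Nat.add nA nB) fun n =>
  strict (Nat.add (Nat.add (Nat.sub N rA) (Nat.sub N rB)) N) fun G =>
  (fun f : Bool → Nat → Bool → Nat → Bool =>
    bnd (bnd (Nat.ble mA (Nat.shiftLeft 1 (Nat.sub N 1)))
      (Nat.ble mB (Nat.shiftLeft 1 (Nat.sub N 1))))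
    (side bA cA zA wA nA N uA rA S eA t u0 u1 u2 u3 fun gA aA => cnd same (f gA aA gA aA)
      (side bB cB zB wB nB N uB rB S eB t v0 v1 v2 v3 fun gB aB => f gA aA gB aB)))
  (rest N P q wp wq m0 m1 m2 m3 h n G (erf (Nat.mul 16 nA) (Nat.mul 16 nB) xA xB
    (erx wA uA rA mA) (erx wB uB rB mB) (Nat.shiftLeft 1 (Nat.add N 1))
    (Nat.add (Nat.add P q) (Nat.mul 16 n))) k)

/-- One form, multiplied by `wp / wq`; the bound is the difference of the two numbers passed on. -/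
def core (same : Bool) (N t cF bA cA zA eA bB cB zB eB P q wp wq u0 u1 u2 u3 v0 v1 v2 v3
    m0 m1 m2 m3 : Nat) (k : Nat → Nat → Bool) : Bool :=
  strict (Nat.add (Nat.log2 (bet bA zA cA 0 0)) 1) fun wA =>
  strict (Nat.add (Nat.log2 (bet bB zB cB 0 0)) 1) fun wB =>
  strict (Nat.add (Nat.div cA 16) 1) fun nA => strict (Nat.add (Nat.div cB 16) 1) fun nB =>
  strict (ubar t (Nat.add (Nat.add eA (Nat.mul 16 nA)) 4)) fun uA =>
  strict (ubar t (Nat.add (Nat.add eB (Nat.mul 16 nB)) 4)) fun uB =>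
  strict (Nat.sub N (Nat.sub (Nat.add (Nat.add wB uB) 32) cF)) fun rA =>
  strict (Nat.sub N (Nat.sub (Nat.add (Nat.add wA uA) 32) cF)) fun rB =>
  strict (Nat.sub (Nat.add wA (Nat.add N uA)) rA) fun xA =>
  strict (Nat.sub (Nat.add wB (Nat.add N uB)) rB) fun xB =>
  strict (Nat.add (Nat.add xA xB) (Nat.add (Nat.log2 (Nat.mul 16 nA)) 1)) fun h =>
  cor2 same N t bA cA zA eA bB cB zB eB P q wp wq u0 u1 u2 u3 v0 v1 v2 v3 m0 m1 m2 m3
    wA wB nA nB uA uB rA rB xA xB h k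

/-- The sum of the forms of the degrees `2 i + 2`, `i0 ≤ i`. -/
def loop (same : Bool) (N t cF bA a0 bB b0 q i0 Rp Rn n : Nat) :
    List (Nat × Nat) → List (Nat × Nat) → Nat → Nat → Nat → Nat → Nat → Nat → Nat → Nat → Nat →
      Nat → Nat → Nat → Nat → Nat → Nat → Bool :=
  Nat.rec (motive := fun _ => List (Nat × Nat) → List (Nat × Nat) → Nat → Nat → Nat → Nat → Nat →
      Nat → Nat → Nat → Nat → Nat → Nat → Nat → Nat → Nat → Nat → Bool)
    (fun _ _ _ _ _ _ _ _ _ _ _ _ _ _ _ x y => Nat.ble (Nat.add x Rn) (Nat.add y Rp))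
    (fun _ ih A B i u0 u1 u2 u3 v0 v1 v2 v3 m0 m1 m2 m3 x y =>
      List.rec (motive := fun _ => Bool) false (fun pa A _ =>
      List.rec (motive := fun _ => Bool) false (fun pb B _ =>
        usep pa fun cA zA => usep pb fun cB zB => strict i fun i =>
        strict (Nat.add (Nat.mul 4 i) a0) fun eA => strict (Nat.add (Nat.mul 4 i) b0) fun eB =>
        strict (Nat.add (Nat.mul 8 i) (Nat.add t 14)) fun P =>
        win (Nat.add eA t) eA u0 u1 u2 u3 fun r0 r1 r2 r3 =>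
        win (Nat.add eB t) eB v0 v1 v2 v3 fun s0 s1 s2 s3 =>
        wip P (Nat.add P q) m0 m1 m2 m3 fun c0 c1 c2 c3 =>
        wip (Nat.add P 4) (Nat.add (Nat.add P 4) q) c0 c1 c2 c3 fun c0 c1 c2 c3 =>
        cnd (Nat.ble i0 i)
          (strict cA fun cA => strict cB fun cB =>
            core same N t cF bA cA zA eA bB cB zB eB P q
            (Nat.mul 4 (Nat.mul (Nat.add (Nat.mul 2 i) 2) (Nat.add (Nat.mul 2 i) 3)))
            (Nat.add (Nat.mul 4 i) 5) u0 u1 u2 u3 v0 v1 v2 v3 m0 m1 m2 m3 fun x' y' =>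
            strict (Nat.add x x') fun x => strict (Nat.add y y') fun y =>
            ih A B (Nat.add i 1) r0 r1 r2 r3 s0 s1 s2 s3 c0 c1 c2 c3 x y)
          (ih A B (Nat.add i 1) r0 r1 r2 r3 s0 s1 s2 s3 c0 c1 c2 c3 x y)) B) A) n

/-- The number one with 3072 fractional bits. -/
def cOne : Nat := Nat.shiftLeft 1 3072

/-- A lower approximation of `2 ^ N Γ ((m + t) / 4) / Γ (m / 4)`. -/
def uLo (N t m : Nat) (k : Nat → Bool) : Bool :=
  strict (gLo (Nat.add m t)) fun A => strict (gEr (Nat.add m t)) fun a =>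
    strict (gLo m) fun B => strict (gEr m) fun b =>
    strict (Nat.div (Nat.shiftLeft A N) (Nat.add B b)) fun u =>
    bnd (bnd (bnd (Nat.ble 1 B) (Nat.ble 2 m)) (bnd (Nat.ble (Nat.shiftLeft 1 (Nat.sub N 1)) u)
      (Nat.ble (Nat.shiftLeft (Nat.add A a) N) (Nat.mul (Nat.add u 2) B)))) (k u)

/-- A lower approximation of `2 ^ N s B (P / 4, q / 4)`, where `s` is in `[c, c + 1] / 2 ^ 3072`
and `D = 6144`. -/
def mLo (N D c P q : Nat) (k : Nat → Bool) : Bool :=
  strict (gLo P) fun A => strict (gEr P) fun a => strict (gLo q) fun B => strict (gEr q) fun b =>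
    strict (gLo (Nat.add P q)) fun C => strict (gEr (Nat.add P q)) fun d =>
    strict (Nat.div (Nat.shiftLeft (Nat.mul (Nat.mul A B) c) N)
      (Nat.shiftLeft (Nat.add C d) D)) fun u =>
    bnd (bnd (bnd (Nat.ble 1 C) (bnd (Nat.ble 1 P) (Nat.ble 1 q)))
      (bnd (Nat.ble u (Nat.shiftLeft 1 (Nat.add N 1)))
        (Nat.ble (Nat.shiftLeft (Nat.mul (Nat.mul (Nat.add A a) (Nat.add B b)) (Nat.add c 1)) N)
          (Nat.mul (Nat.add u 2) (Nat.shiftLeft C D))))) (k u)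

/-- The check of `∑ i0 ≤ i < n, ... ≤ Rp - Rn`. -/
def job (same : Bool) (N t cF bA a0 bB b0 q c i0 n Rp Rn : Nat) (A B : List (Nat × Nat)) : Bool :=
  uLo N t a0 fun u0 => uLo N t (Nat.add a0 1) fun u1 => uLo N t (Nat.add a0 2) fun u2 =>
    uLo N t (Nat.add a0 3) fun u3 =>
    uLo N t b0 fun v0 => uLo N t (Nat.add b0 1) fun v1 => uLo N t (Nat.add b0 2) fun v2 =>
    uLo N t (Nat.add b0 3) fun v3 =>
    mLo N 6144 c (Nat.add t 14) q fun m0 =>
    mLo N 6144 c (Nat.add t 14) (Nat.add q 1) fun m1 =>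
    mLo N 6144 c (Nat.add t 14) (Nat.add q 2) fun m2 =>
    mLo N 6144 c (Nat.add t 14) (Nat.add q 3) fun m3 =>
    loop same N t cF bA a0 bB b0 q i0 Rp Rn n A B 0 u0 u1 u2 u3 v0 v1 v2 v3 m0 m1 m2 m3 0 0

end

end Pool.Agent.Lib.Dy
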