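import Pool.Agent.Lib.KTab.Row
import Pool.Agent.Lib.Dy.HkDefs

/-!
The meaning of the loop `run`.
-/

namespace Pool.Agent.Lib.Dy

open Finset Pool.Agent.Lib.KLA Pool.Agent.Lib.KTab

/-- The sequence with `u (j + 4) = u j * (p + j) / (q + j)`. -/
noncomputable def sq (p q u0 u1 u2 u3 : ℕ) : ℕ → ℕ
  | 0 => u0
  | 1 => u1
  | 2 => u2
  | 3 => u3
  | i + 4 => nx (p + i) (q + i) (sq p q u0 u1 u2 u3 i)

variable {p q u0 u1 u2 u3 : ℕ}

theorem sq_add (p q u0 u1 u2 u3 i : ℕ) :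
    sq p q u0 u1 u2 u3 (i + 4) = nx (p + i) (q + i) (sq p q u0 u1 u2 u3 i) := by rw [sq]

theorem sq_shift (p q u0 u1 u2 u3 m : ℕ) : ∀ i, sq (p + m) (q + m) (sq p q u0 u1 u2 u3 m)
    (sq p q u0 u1 u2 u3 (m + 1)) (sq p q u0 u1 u2 u3 (m + 2)) (sq p q u0 u1 u2 u3 (m + 3)) i
      = sq p q u0 u1 u2 u3 (m + i)
  | 0 => rfl
  | 1 => rfl
  | 2 => rfl
  | 3 => rfl
  | i + 4 => by
    rw [sq_add, sq_shift p q u0 u1 u2 u3 m i, ← add_assoc m, sq_add, add_assoc, add_assoc]

theorem sq_ind {P : ℕ → ℕ → Prop} (h0 : P 0 u0) (h1 : P 1 u1) (h2 : P 2 u2) (h3 : P 3 u3)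
    (h : ∀ i a, P i a → P (i + 4) (nx (p + i) (q + i) a)) : ∀ i, P i (sq p q u0 u1 u2 u3 i)
  | 0 => h0
  | 1 => h1
  | 2 => h2
  | 3 => h3
  | i + 4 => h i _ (sq_ind h0 h1 h2 h3 h i)

theorem win_eq (p q u0 u1 u2 u3 : ℕ) (k : ℕ → ℕ → ℕ → ℕ → Bool) : win p q u0 u1 u2 u3 k =
    k (nx p q u0) (nx (p + 1) (q + 1) u1) (nx (p + 2) (q + 2) u2) (nx (p + 3) (q + 3) u3) := rfl

theorem wip_eq (p q u0 u1 u2 u3 : ℕ) (k : ℕ → ℕ → ℕ → ℕ → Bool) : wip p q u0 u1 u2 u3 k =
    k (nx p q u0) (nx p (q + 1) u1) (nx p (q + 2) u2) (nx p (q + 3) u3) := rfl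

theorem blk_eq (W w K r S y : ℕ) (g : ℕ → ℕ) (m : ℕ) :
    blk W w K r S y (g m) (g (m + 1)) (g (m + 2)) (g (m + 3)) =
      ∑ j ∈ range 4, el w K r (bits y (W * j) W) (g (m + j)) * 2 ^ (S * j) := by
  simp only [blk, land_shr, shl_eq, Nat.add_eq, Nat.mul_eq, sum_range_succ, range_zero, sum_empty,
    mul_zero, mul_one, pow_zero, zero_add, add_zero]
  rw [land_low, show bits y 0 W = y % 2 ^ W by simp [bits]]
  ring

theorem run_ok {W w K r S U : ℕ} : ∀ {n p q u0 u1 u2 u3 y : ℕ} {k : ℕ → Bool},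
    run W w K r S U n p q u0 u1 u2 u3 y k = true →
      k (∑ j ∈ range (16 * n), el w K r (bits y (W * j) W) (sq p q u0 u1 u2 u3 j) * 2 ^ (S * j))
        = true ∧ ∀ i < 4, sq p q u0 u1 u2 u3 (16 * n + i) ≤ U
  | 0, p, q, u0, u1, u2, u3, y, k, h => by
    have h' : bnd (bnd (bnd (Nat.ble u0 U) (Nat.ble u1 U)) (bnd (Nat.ble u2 U) (Nat.ble u3 U)))
      (k 0) = true := h
    simp only [bnd_iff, Nat.ble_eq] at h'
    refine ⟨h'.2, fun i hi => ?_⟩
    interval_cases i
    exacts [h'.1.1.1, h'.1.1.2, h'.1.2.1, h'.1.2.2]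
  | n + 1, p, q, u0, u1, u2, u3, y, k, h => by
    set g := sq p q u0 u1 u2 u3 with hg
    have h' : run W w K r S U n (p + 16) (q + 16) (g 16) (g (16 + 1)) (g (16 + 2)) (g (16 + 3))
        (Nat.shiftRight y (W * 16)) (fun R => k (
          blk W w K r S (Nat.land (Nat.land y (low (W * 16))) (low (W * 4))) (g 0) (g (0 + 1))
            (g (0 + 2)) (g (0 + 3))
          + Nat.shiftLeft (blk W w K r S (Nat.land (Nat.shiftRight (Nat.land y (low (W * 16)))
            (W * 4)) (low (W * 4))) (g 4) (g (4 + 1)) (g (4 + 2)) (g (4 + 3))) (S * 4)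
          + Nat.shiftLeft (blk W w K r S (Nat.land (Nat.shiftRight (Nat.land y (low (W * 16)))
            (W * 8)) (low (W * 4))) (g 8) (g (8 + 1)) (g (8 + 2)) (g (8 + 3))
            + Nat.shiftLeft (blk W w K r S (Nat.shiftRight (Nat.land y (low (W * 16))) (W * 12))
              (g 12) (g (12 + 1)) (g (12 + 2)) (g (12 + 3))) (S * 4)) (S * 8)
          + Nat.shiftLeft R (S * 16))) = true := h
    obtain ⟨h1, h2⟩ := run_ok h'
    simp only [hg, sq_shift] at h1 h2
    refine ⟨(congrArg k ?_).trans h1, fun i hi => ?_⟩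
    · simp only [← hg, blk_eq, land_low, shr_eq, shl_eq]
      rw [show 16 * (n + 1) = 4 + 4 + (4 + 4) + 16 * n by ring, sum_range_add _ _ (16 * n),
        sum_range_add _ (4 + 4), sum_range_add _ 4 4, sum_range_add _ 4 4, add_mul, sum_mul,
        sum_mul, sum_mul, sum_mul, sum_mul]
      congr 1
      · congr 1
        · congr 1 <;> refine sum_congr rfl fun j hj => ?_ <;> have := mem_range.1 hj
          · rw [bits_mod (by nlinarith), bits_mod (by nlinarith), zero_add]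
          · rw [bits_mod (by nlinarith), bits_div, bits_mod (by nlinarith), ← mul_add, mul_add S,
              pow_add]
            ring
        · congr 1 <;> refine sum_congr rfl fun j hj => ?_ <;> have := mem_range.1 hj
          · rw [bits_mod (by nlinarith), bits_div, bits_mod (by nlinarith), ← mul_add, mul_add S,
              pow_add]
            ring
          · rw [bits_div, bits_mod (by nlinarith), ← mul_add, mul_add S, mul_add S 4 j, pow_add,
              pow_add, ← add_assoc]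
            ring
      · refine sum_congr rfl fun j _ => ?_
        rw [bits_div, ← mul_add, mul_add S, pow_add]
        ring
    · rw [show 16 * (n + 1) + i = 16 + (16 * n + i) by ring]
      exact h2 i hi

end Pool.Agent.Lib.Dy
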