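import Pool.Agent.Lib.Dy.Cheb
import Pool.Agent.Lib.Dy.HkRun

/-!
The monomial coefficients of a Chebyshev sum, and their products with the weights.
-/

namespace Pool.Agent.Lib.Dy

open Polynomial Finset Pool.Agent.Lib.KLA Pool.Agent.Lib.KTab

theorem dgt_sdig (b z j : ℕ) : (dgt (Nat.add b 1) z j : ℤ) - (Nat.shiftLeft 1 b : ℕ) = sdig b z j := by
  rw [dgt, land_shr, shl_eq, one_mul, sdig]
  push_cast
  rfl

theorem adg_eq (b z j : ℕ) : (adg b z j : ℤ) = |sdig b z j| := by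
  rw [← dgt_sdig, adg]
  generalize dgt (Nat.add b 1) z j = x
  generalize Nat.shiftLeft 1 b = y
  simp only [Nat.add_eq, Nat.sub_eq]
  rcases le_total x y with h | h
  · rw [abs_of_nonpos (by omega)]; omega
  · rw [abs_of_nonneg (by omega)]; omega

theorem coeff_X_mul_le {B : ℤ[X]} {x : ℕ} (h : ∀ i, |B.coeff i| ≤ x) : 
    ∀ i, |(X * B).coeff i| ≤ (x : ℤ)
  | 0 => by simp
  | i + 1 => by rw [coeff_X_mul]; exact h i

theorem coeff_C_le (a : ℤ) (i : ℕ) : |(C a).coeff i| ≤ |a| := by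
  rw [coeff_C]
  split_ifs <;> simp

theorem bet_aux (b z : ℕ) : ∀ (j x y : ℕ) (B1 B2 : ℤ[X]), (∀ i, |B1.coeff i| ≤ x) →
    (∀ i, |B2.coeff i| ≤ y) → ∀ i,
      |(chP b j z + B1 * chS (j + 1) - B2 * chS j).coeff i| ≤ bet b z j x y
  | 0, x, y, B1, B2, h1, h2, i => by
    have e : chP b 0 z + B1 * chS (0 + 1) - B2 * chS 0
        = C (sdig b z 0) + (X * B1 + X * B1) - B1 - B2 := by
      rw [chP, sum_range_one, zero_add, chS_one, chS_zero]; ring
    have e' : bet b z 0 x y = adg b z 0 + 3 * x + y := rfl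
    rw [e, e']
    push_cast
    simp only [coeff_sub, coeff_add, adg_eq]
    have a1 := abs_le.1 (coeff_C_le (sdig b z 0) i)
    have a2 := abs_le.1 (coeff_X_mul_le h1 i)
    have a3 := abs_le.1 (h1 i)
    have a4 := abs_le.1 (h2 i)
    rw [abs_le]
    constructor <;> linarith [a1.1, a1.2, a2.1, a2.2, a3.1, a3.2, a4.1, a4.2]
  | j + 1, x, y, B1, B2, h1, h2, i => by
    have e : chP b (j + 1) z + B1 * chS (j + 1 + 1) - B2 * chS (j + 1) = chP b j z
        + (C (sdig b z (j + 1)) + (X * B1 + X * B1 + X * B1 + X * B1) - (B1 + B1) - B2)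
          * chS (j + 1) - B1 * chS j := by
      rw [chP, sum_range_succ, ← chP, chS_add_two]; ring
    have e' : bet b z (j + 1) x y = bet b z j (adg b z (j + 1) + 6 * x + y) x := rfl
    rw [e, e']
    refine bet_aux b z j _ _ _ _ (fun i => ?_) h1 i
    push_cast
    simp only [coeff_sub, coeff_add, adg_eq]
    have a1 := abs_le.1 (coeff_C_le (sdig b z (j + 1)) i)
    have a2 := abs_le.1 (coeff_X_mul_le h1 i)
    have a3 := abs_le.1 (h1 i)
    have a4 := abs_le.1 (h2 i)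
    rw [abs_le]
    constructor <;> linarith [a1.1, a1.2, a2.1, a2.2, a3.1, a3.2, a4.1, a4.2]

theorem bet_ok (b z c i : ℕ) :
    |(chP b c z).coeff i| ≤ (2 ^ (Nat.log2 (bet b z c 0 0) + 1) : ℕ) := by
  have h := bet_aux b z c 0 0 0 0 (by simp) (by simp) i
  simp only [zero_mul, add_zero, sub_zero] at h
  exact h.trans (by exact_mod_cast Nat.lt_log2_self.le)

theorem sv_nt (g : Bool) (a : ℕ) : sv (nt g) a = -sv g a := by
  cases g <;> simp [sv, nt, cnd]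

theorem cl_aux {b z Z : ℕ} {T : ℕ → ℤ} (h0 : T 0 = 1) (h1 : T 1 = Z)
    (h2 : ∀ j, T (j + 2) = 2 * Z * T (j + 1) - T j) : ∀ {j : ℕ} {g1 : Bool} {a1 : ℕ} {g2 : Bool}
    {a2 : ℕ} {k : Bool → ℕ → Bool}, cl b z Z j g1 a1 g2 a2 k = true → ∃ g a, k g a = true ∧
      sv g a = ∑ i ∈ range (j + 1), sdig b z i * T i + sv g1 a1 * T (j + 1) - sv g2 a2 * T j
  | 0, g1, a1, g2, a2, k, h => by
    have h' : ssub (dgt (Nat.add b 1) z 0) (Nat.shiftLeft 1 b) (fun gp ap =>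
      sadd g1 (Nat.mul a1 Z) (nt g2) a2 fun g a => sadd g a gp ap k) = true := h
    obtain ⟨gp, ap, e1, h⟩ := ssub_ok h'
    obtain ⟨g, a, e2, h⟩ := sadd_ok h
    obtain ⟨g', a', e3, h⟩ := sadd_ok h
    refine ⟨g', a', h, ?_⟩
    rw [e3, e2, e1, dgt_sdig, Nat.mul_eq, sv_mul, sv_nt, sum_range_one, zero_add, h0, h1]
    ring
  | j + 1, g1, a1, g2, a2, k, h => by
    have h' : ssub (dgt (Nat.add b 1) z (j + 1)) (Nat.shiftLeft 1 b) (fun gp ap =>
      sadd g1 (Nat.mul a1 (2 * Z)) (nt g2) a2 fun g a => sadd g a gp ap fun g a =>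
        cl b z Z j g a g1 a1 k) = true := h
    obtain ⟨gp, ap, e1, h⟩ := ssub_ok h'
    obtain ⟨g, a, e2, h⟩ := sadd_ok h
    obtain ⟨g', a', e3, h⟩ := sadd_ok h
    obtain ⟨g'', a'', h, e4⟩ := cl_aux h0 h1 h2 (j := j) h
    refine ⟨g'', a'', h, ?_⟩
    rw [e4, e3, e2, e1, dgt_sdig, Nat.mul_eq, sv_mul, sv_nt, sum_range_succ _ (j + 1), h2]
    push_cast
    ring

theorem cl_ok {b z W c n : ℕ} {k : Bool → ℕ → Bool} (hn : c < n)
    (h : cl b z (low (W + 1)) c false 0 false 0 k = true) :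
    ∃ g a, k g a = true ∧ sv g a = pk W n fun j => (chP b c z).coeff j := by
  have hZ : ((low (W + 1) : ℕ) : ℤ) = 2 * 2 ^ W - 1 := by
    rw [low_eq, Nat.cast_sub Nat.one_le_two_pow]
    push_cast; ring
  obtain ⟨g, a, h, e⟩ := cl_aux (T := fun j => (chS j).eval (2 ^ W)) (by simp [chS_zero])
    (by simp [chS_one, hZ]) (fun j => by simp [chS_add_two, hZ]) h
  refine ⟨g, a, h, ?_⟩
  have e1 : (chP b c z).eval (2 ^ W) = pk W n fun j => (chP b c z).coeff j := by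
    rw [eval_eq_sum_range' ((natDegree_chP b c z).trans_lt hn), pk]
    exact sum_congr rfl fun j _ => by rw [pow_mul]
  rw [e, ← e1, chP, eval_finsetSum]
  simp [sv]

theorem off_vec {W p e a : ℕ} {g : Bool} {k : ℕ → Bool} {v : ℕ → ℤ} (hW : 0 < W)
    (h : off g a (ofs W p e) k = true) (h1 : sv g a = pk W p v)
    (h2 : ∀ j < p, |v j| ≤ (2 ^ e : ℕ)) : ∃ y, k y = true ∧ Vec W p (2 ^ e) y v := by
  have e1 : sv g a + ofs W p e = pk W p fun j => v j + (2 ^ e : ℕ) := by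
    rw [h1, ofs_eq hW, pk_add]
    exact pk_congr fun j _ => by push_cast; rfl
  have e2 : 0 ≤ sv g a + ofs W p e := e1 ▸ pk_nonneg fun j hj => by linarith [(abs_le.1 (h2 j hj)).1]
  cases g
  · exact ⟨_, h, by rw [← e1]; simp [sv], h2⟩
  · refine ⟨_, h, ?_, h2⟩
    simp only [sv, if_true] at e1 e2
    rw [← e1, Nat.sub_eq, Nat.cast_sub (by omega)]
    ring

theorem el_eq {w K r d u U : ℕ} {c : ℤ} (hd : (d : ℤ) = c + (2 ^ w : ℕ)) (hu : u ≤ U)
    (hK : K = 2 ^ w * U) : (el w K r d u : ℤ) = (c * u + K) / 2 ^ r := by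
  have h1 : u * 2 ^ w ≤ d * u + K := by rw [hK]; nlinarith [Nat.zero_le (d * u), Nat.zero_le (2 ^ w)]
  rw [el, shr_eq, shl_eq, Nat.sub_eq, Nat.add_eq, Nat.mul_eq, Int.natCast_div, Nat.cast_sub h1]
  push_cast at hd ⊢
  rw [hd]
  congr 1
  ring

theorem le_nx {p q u : ℕ} (hq : 0 < q) (h : q ≤ p) : u ≤ nx p q u :=
  (Nat.le_div_iff_mul_le hq).2 (Nat.mul_le_mul_left u h)

theorem sq_mono {p q u0 u1 u2 u3 : ℕ} (hq : 0 < q) (h : q ≤ p) (i : ℕ) :
    ∀ m, sq p q u0 u1 u2 u3 i ≤ sq p q u0 u1 u2 u3 (i + 4 * m)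
  | 0 => le_rfl
  | m + 1 => by
    rw [show i + 4 * (m + 1) = i + 4 * m + 4 by ring, sq_add]
    exact (sq_mono hq h i m).trans (le_nx (by omega) (by omega))

theorem side_ok {b c z w n N ub r S e t u0 u1 u2 u3 : ℕ} {k : Bool → ℕ → Bool} (he : 0 < e)
    (hS : 0 < S) (hc : c < 16 * n) (hr : r ≤ N) (hw : ∀ i, |(chP b c z).coeff i| ≤ (2 ^ w : ℕ))
    (h : side b c z w n N ub r S e t u0 u1 u2 u3 k = true) : ∃ g a, k g a = true ∧
      sv g a = pk S (16 * n) (fun j => (chP b c z).coeff j * sq (e + t) e u0 u1 u2 u3 j / 2 ^ r) ∧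
      ∀ j < 16 * n, sq (e + t) e u0 u1 u2 u3 j ≤ 2 ^ (N + ub) := by
  simp only [side, strict_eq, Nat.add_eq, Nat.mul_eq, Nat.sub_eq, shl_eq, one_mul] at h
  obtain ⟨g, a, h, e1⟩ := cl_ok hc h
  obtain ⟨y, h, hy⟩ := off_vec (by omega) h e1 fun j _ => hw j
  obtain ⟨h, hU⟩ := run_ok h
  obtain ⟨g', a', e2, h⟩ := ssub_ok h
  have hU' : ∀ j < 16 * n, sq (e + t) e u0 u1 u2 u3 j ≤ 2 ^ (N + ub) := fun j hj => by
    refine (sq_mono he (by omega) j (4 * n - j / 4)).trans ?_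
    rw [show j + 4 * (4 * n - j / 4) = 16 * n + j % 4 by omega]
    exact hU _ (Nat.mod_lt _ (by norm_num))
  refine ⟨g', a', h, ?_, hU'⟩
  rw [e2, ofs_eq hS, Nat.cast_sum, pk, pk, ← sum_sub_distrib]
  refine sum_congr rfl fun j hj => ?_
  have hj := mem_range.1 hj
  rw [Nat.cast_mul, el_eq (hy.ent (by rw [pow_add]; have := Nat.two_pow_pos w; omega) hj) (hU' j hj)
    (pow_add _ _ _)]
  obtain ⟨x, hx⟩ : ∃ x, w + (N + ub) = x + r := ⟨w + (N + ub) - r, by omega⟩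
  rw [hx, Nat.add_sub_cancel, pow_add]
  push_cast
  rw [Int.add_mul_ediv_right _ _ (by positivity)]
  ring

end Pool.Agent.Lib.Dy
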