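import Pool.Agent.Lib.Dy.HkErr

/-!
The meaning of the check of a sum of weighted Hankel forms.
-/

namespace Pool.Agent.Lib.Dy

open Finset Pool.Agent.Lib.KLA Pool.Agent.Lib.KTab

/-- The weighted Hankel form. -/
noncomputable def hank (s : ℝ) (t bA eA : ℕ) (pA : ℕ × ℕ) (bB eB : ℕ) (pB : ℕ × ℕ) (P q : ℕ) : ℝ :=
  ∑ j ∈ range (pA.1 + 1), ∑ k ∈ range (pB.1 + 1), (chP bA pA.1 pA.2).coeff j * ug t (eA + j)
    * ((chP bB pB.1 pB.2).coeff k * ug t (eB + k)) * (s * bt P (q + (j + k)))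

theorem div_le_nat (a : ℕ) {b : ℕ} (hb : 0 < b) : (a : ℝ) / b ≤ (a / b : ℕ) + 1 := by
  have := le_nx_add hb 1 a
  rwa [Nat.cast_one, mul_one, nx, Nat.mul_eq, mul_one] at this

theorem rest_ok {N P q wp wq m0 m1 m2 m3 h n G Er n1 n2 aA aB : ℕ} {k : ℕ → ℕ → Bool} {gA gB : Bool}
    {s V : ℝ} {X Y : ℕ → ℤ} (hm : W4 (RM N s P) q m0 m1 m2 m3) (hq : 0 < wq)
    (hn : n1 + n2 = 16 * n) (hA : sv gA aA = pk (h + 2) n1 X) (hB : sv gB aB = pk (h + 2) n2 Y)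
    (hc : ∀ i, |cv n1 n2 X Y i| ≤ (2 ^ h : ℕ))
    (hV : 2 ^ G * V ≤ (∑ j ∈ range n1, ∑ k ∈ range n2,
      X j * Y k * sq q (P + q) m0 m1 m2 m3 (j + k) : ℤ) + Er)
    (H : rest N P q wp wq m0 m1 m2 m3 h n G Er k gA aA gB aB = true) :
    ∃ x y : ℕ, k x y = true ∧ wp / wq * V ≤ x - y := by
  simp only [rest, strict_eq, Nat.add_eq, Nat.mul_eq, shl_eq, one_mul] at H
  obtain ⟨y, H, hy⟩ := off_vec (v := cv n1 n2 X Y) (by omega) H
    (by rw [sv_bx, hA, hB, pk_mul_pk, hn]) fun j _ => hc j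
  obtain ⟨H, -⟩ := run_ok H
  refine ⟨_, _, H, ?_⟩
  generalize hT : ∑ j ∈ range (16 * n), el h (2 ^ (h + (N + 1))) 0 (bits y ((h + 2) * j) (h + 2))
    (sq q (P + q) m0 m1 m2 m3 j) * 2 ^ (0 * j) = T
  have e : (T : ℤ) = ∑ j ∈ range n1, ∑ k ∈ range n2,
      X j * Y k * sq q (P + q) m0 m1 m2 m3 (j + k) + (16 * n * 2 ^ (h + (N + 1)) : ℕ) := by
    have e0 : ∀ j ∈ range (16 * n), ((el h (2 ^ (h + (N + 1))) 0 (bits y ((h + 2) * j) (h + 2))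
        (sq q (P + q) m0 m1 m2 m3 j) * 2 ^ (0 * j) : ℕ) : ℤ)
        = cv n1 n2 X Y j * sq q (P + q) m0 m1 m2 m3 j + (2 ^ (h + (N + 1)) : ℕ) := fun j hj => by
      rw [Nat.cast_mul, el_eq (hy.ent (by rw [pow_add]; have := Nat.two_pow_pos h; omega)
        (mem_range.1 hj)) (hm.rm j).2.2.1 (pow_add _ _ _)]
      simp only [zero_mul, pow_zero, Nat.cast_one, mul_one, Int.ediv_one]
    rw [← sum_cv n1 n2 X Y fun i => sq q (P + q) m0 m1 m2 m3 i, hn, ← hT, Nat.cast_sum,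
      sum_congr rfl e0, sum_add_distrib, sum_const, card_range, nsmul_eq_mul, ← Nat.cast_mul]
  have e' : (T : ℝ) = (∑ j ∈ range n1, ∑ k ∈ range n2,
      X j * Y k * sq q (P + q) m0 m1 m2 m3 (j + k) : ℤ) + (16 * n * 2 ^ (h + (N + 1)) : ℕ) := by
    exact_mod_cast e
  have hd : 0 < wq * 2 ^ G := by positivity
  have a1 := div_le_nat ((T + Er) * wp) hd
  have a2 : ((16 * n * 2 ^ (h + (N + 1)) * wp / (wq * 2 ^ G) : ℕ) : ℝ)
      ≤ (16 * n * 2 ^ (h + (N + 1)) * wp : ℕ) / (wq * 2 ^ G : ℕ) := Nat.cast_div_le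
  have hq' : (0 : ℝ) < wq := by exact_mod_cast hq
  have a3 : (wp : ℝ) / wq * V ≤ ((T + Er) * wp : ℕ) / (wq * 2 ^ G : ℕ)
      - (16 * n * 2 ^ (h + (N + 1)) * wp : ℕ) / (wq * 2 ^ G : ℕ) := by
    have a4 := mul_le_mul_of_nonneg_right hV (show (0 : ℝ) ≤ wp / (wq * 2 ^ G) by positivity)
    rw [Nat.cast_mul (T + Er), Nat.cast_add, e', Nat.cast_mul _ wp, Nat.cast_mul wq, Nat.cast_pow,
      Nat.cast_ofNat]
    refine le_trans (le_of_eq (by field_simp)) (a4.trans (le_of_eq (by ring)))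
  have e1 : ∀ a b : ℕ, Nat.div a b = a / b := fun _ _ => rfl
  rw [e1, e1, Nat.cast_add, Nat.cast_one]
  linarith

theorem sum_coeff (b c z n : ℕ) (hn : c < n) (f : ℕ → ℝ) :
    ∑ j ∈ range (c + 1), (chP b c z).coeff j * f j = ∑ j ∈ range n, (chP b c z).coeff j * f j :=
  sum_subset (range_subset_range.2 hn) fun j _ hj => by
    rw [Polynomial.coeff_eq_zero_of_natDegree_lt ((natDegree_chP b c z).trans_lt
      (by rw [mem_range] at hj; omega)), Int.cast_zero, zero_mul]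

theorem hank_eq {s : ℝ} {t bA cA zA eA bB cB zB eB P q n1 n2 : ℕ} (h1 : cA < n1) (h2 : cB < n2) :
    hank s t bA eA (cA, zA) bB eB (cB, zB) P q = ∑ j ∈ range n1, ∑ k ∈ range n2,
      (chP bA cA zA).coeff j * ug t (eA + j) * ((chP bB cB zB).coeff k * ug t (eB + k))
        * (s * bt P (q + (j + k))) := by
  have e : ∀ m1 m2 : ℕ, ∑ j ∈ range m1, ∑ k ∈ range m2, (chP bA cA zA).coeff j * ug t (eA + j)
      * ((chP bB cB zB).coeff k * ug t (eB + k)) * (s * bt P (q + (j + k)))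
      = ∑ j ∈ range m1, (chP bA cA zA).coeff j * ∑ k ∈ range m2, (chP bB cB zB).coeff k
        * (ug t (eA + j) * ug t (eB + k) * (s * bt P (q + (j + k)))) := fun m1 m2 =>
    sum_congr rfl fun j _ => by
      rw [mul_sum]
      exact sum_congr rfl fun k _ => by ring
  rw [hank, e, e, sum_coeff _ _ _ _ h1]
  exact sum_congr rfl fun j _ => by rw [sum_coeff _ _ _ _ h2]

theorem erf_eq (n n' x x' E E' M d : ℕ) : (erf n n' x x' E E' M d : ℝ) = n * (n' *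
    (((2 ^ x : ℕ) + E) * ((2 ^ x' : ℕ) + E') * (M + d) - (2 ^ x : ℕ) * (2 ^ x' : ℕ) * M)) := by
  simp only [erf, Nat.add_eq, Nat.mul_eq, Nat.sub_eq, shl_eq, one_mul]
  rw [Nat.cast_mul, Nat.cast_sub (by gcongr <;> omega)]
  push_cast
  ring

theorem cor2_ok {same : Bool} {N t bA cA zA eA bB cB zB eB P q wp wq u0 u1 u2 u3 v0 v1 v2 v3
    m0 m1 m2 m3 wA wB nA nB uA uB rA rB xA xB h : ℕ} {k : ℕ → ℕ → Bool} {s : ℝ}
    (hs : same = true → bB = bA ∧ cB = cA ∧ zB = zA ∧ eB = eA ∧ v0 = u0 ∧ v1 = u1 ∧ v2 = u2 ∧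
      v3 = u3 ∧ wB = wA ∧ nB = nA ∧ uB = uA ∧ rB = rA)
    (hu : W4 (RU N t) eA u0 u1 u2 u3) (hv : W4 (RU N t) eB v0 v1 v2 v3)
    (hm : W4 (RM N s P) q m0 m1 m2 m3) (hq : 0 < wq)
    (wa : ∀ i, |(chP bA cA zA).coeff i| ≤ (2 ^ wA : ℕ))
    (wb : ∀ i, |(chP bB cB zB).coeff i| ≤ (2 ^ wB : ℕ)) (na : cA < 16 * nA) (nb : cB < 16 * nB)
    (ra : rA ≤ N) (rb : rB ≤ N) (xa : xA + rA = wA + (N + uA)) (xb : xB + rB = wB + (N + uB))
    (hh : 16 * nA * (2 ^ xA * 2 ^ xB) ≤ 2 ^ h)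
    (H : cor2 same N t bA cA zA eA bB cB zB eB P q wp wq u0 u1 u2 u3 v0 v1 v2 v3 m0 m1 m2 m3
      wA wB nA nB uA uB rA rB xA xB h k = true) :
    ∃ x y : ℕ, k x y = true ∧ wp / wq * hank s t bA eA (cA, zA) bB eB (cB, zB) P q ≤ x - y := by
  simp only [cor2, strict_eq, Nat.add_eq, Nat.mul_eq, Nat.sub_eq, shl_eq, one_mul, bnd_iff,
    Nat.ble_eq] at H
  obtain ⟨⟨ma, mb⟩, H1⟩ := H
  obtain ⟨gA, aA, H2, eA1, eA2⟩ := side_ok hu.1.1 (by omega) na ra wa H1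
  have key : ∃ gB aB, rest N P q wp wq m0 m1 m2 m3 h (nA + nB) (N - rA + (N - rB) + N)
      (erf (16 * nA) (16 * nB) xA xB (erx wA uA rA (eA + 16 * nA)) (erx wB uB rB (eB + 16 * nB))
        (2 ^ (N + 1)) (P + q + 16 * (nA + nB))) k gA aA gB aB = true ∧
      sv gB aB = pk (h + 2) (16 * nB)
        (fun j => (chP bB cB zB).coeff j * sq (eB + t) eB v0 v1 v2 v3 j / 2 ^ rB) ∧
      ∀ j < 16 * nB, sq (eB + t) eB v0 v1 v2 v3 j ≤ 2 ^ (N + uB) := by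
    cases same
    · exact side_ok hv.1.1 (by omega) nb rb wb H2
    · obtain ⟨rfl, rfl, rfl, rfl, rfl, rfl, rfl, rfl, rfl, rfl, rfl, rfl⟩ := hs rfl
      exact ⟨gA, aA, H2, eA1, eA2⟩
  obtain ⟨gB, aB, H, eB1, eB2⟩ := key
  have fA := fun j (hj : j < 16 * nA) => (hu.ru j).err (eA2 j hj) (wa j) ra xa
    (Nat.add_le_add_left hj.le _) ma
  have fB := fun j (hj : j < 16 * nB) => (hv.ru j).err (eB2 j hj) (wb j) rb xb
    (Nat.add_le_add_left hj.le _) mb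
  refine rest_ok hm hq (by ring) eA1 eB1 (fun i => (abs_cv (fun j hj => (fA j hj).1)
    (fun j hj => (fB j hj).1) i).trans (by exact_mod_cast hh)) ?_ H
  rw [hank_eq na nb, erf_eq, mul_sum, ← nsmul_eq_mul, ← nsmul_eq_mul]
  nth_rw 3 [← card_range (16 * nA)]
  nth_rw 3 [← card_range (16 * nB)]
  rw [← sum_const, ← sum_const, Int.cast_sum, ← sum_add_distrib]
  refine sum_le_sum fun j hj => ?_
  rw [mul_sum, Int.cast_sum, ← sum_add_distrib]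
  refine sum_le_sum fun i hi => ?_
  have hj := mem_range.1 hj
  have hi := mem_range.1 hi
  obtain ⟨-, -, b1, b2, b3⟩ := hm.rm (j + i)
  have b4 : ((P + (q + (j + i)) : ℕ) : ℝ) ≤ (P + q + 16 * (nA + nB) : ℕ) := by
    exact_mod_cast (by omega)
  have := err_three (Z := sq q (P + q) m0 m1 m2 m3 (j + i)) (γ := (2 ^ (N + 1) : ℕ))
    (G := (P + q + 16 * (nA + nB) : ℕ)) (c := 2 ^ N * (s * bt P (q + (j + i))))
    (α := (2 ^ xA : ℕ)) (β := (2 ^ xB : ℕ))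
    (by exact_mod_cast (fA j hj).1) (fA j hj).2 (by exact_mod_cast (fB i hi).1) (fB i hi).2
    (by rw [Nat.abs_cast]; exact_mod_cast b1) (by rw [abs_of_nonneg (by linarith)]; linarith)
  refine le_trans (le_of_eq ?_) (this.trans (le_of_eq ?_))
  · rw [pow_add, pow_add]; ring
  · push_cast; ring

theorem le_slot (n x y : ℕ) : 16 * n * (2 ^ x * 2 ^ y)
    ≤ 2 ^ Nat.add (Nat.add x y) (Nat.add (Nat.log2 (Nat.mul 16 n)) 1) := by
  simp only [Nat.add_eq, Nat.mul_eq]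
  rw [← pow_add, pow_add _ _ (_ + 1), mul_comm]
  exact Nat.mul_le_mul_left _ Nat.lt_log2_self.le

theorem cor3_ok {same : Bool} {N t cF bA cA zA eA bB cB zB eB P q wp wq u0 u1 u2 u3 v0 v1 v2 v3
    m0 m1 m2 m3 wA wB nA nB uA uB : ℕ} {k : ℕ → ℕ → Bool} {s : ℝ}
    (hs : same = true → bB = bA ∧ cB = cA ∧ zB = zA ∧ eB = eA ∧ v0 = u0 ∧ v1 = u1 ∧ v2 = u2 ∧
      v3 = u3 ∧ wB = wA ∧ nB = nA ∧ uB = uA)
    (hu : W4 (RU N t) eA u0 u1 u2 u3) (hv : W4 (RU N t) eB v0 v1 v2 v3)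
    (hm : W4 (RM N s P) q m0 m1 m2 m3) (hq : 0 < wq)
    (wa : ∀ i, |(chP bA cA zA).coeff i| ≤ (2 ^ wA : ℕ))
    (wb : ∀ i, |(chP bB cB zB).coeff i| ≤ (2 ^ wB : ℕ)) (na : cA < 16 * nA) (nb : cB < 16 * nB)
    (H : (strict (Nat.sub N (Nat.sub (Nat.add (Nat.add wB uB) 32) cF)) fun rA =>
      strict (Nat.sub N (Nat.sub (Nat.add (Nat.add wA uA) 32) cF)) fun rB =>
      strict (Nat.sub (Nat.add wA (Nat.add N uA)) rA) fun xA =>
      strict (Nat.sub (Nat.add wB (Nat.add N uB)) rB) fun xB =>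
      strict (Nat.add (Nat.add xA xB) (Nat.add (Nat.log2 (Nat.mul 16 nA)) 1)) fun h =>
      cor2 same N t bA cA zA eA bB cB zB eB P q wp wq u0 u1 u2 u3 v0 v1 v2 v3 m0 m1 m2 m3
        wA wB nA nB uA uB rA rB xA xB h k) = true) :
    ∃ x y : ℕ, k x y = true ∧ wp / wq * hank s t bA eA (cA, zA) bB eB (cB, zB) P q ≤ x - y := by
  rw [strict_eq, strict_eq, strict_eq, strict_eq, strict_eq] at H
  have ra : Nat.sub N (Nat.sub (Nat.add (Nat.add wB uB) 32) cF) ≤ N := Nat.sub_le _ _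
  have rb : Nat.sub N (Nat.sub (Nat.add (Nat.add wA uA) 32) cF) ≤ N := Nat.sub_le _ _
  refine cor2_ok (fun h => ?_) hu hv hm hq wa wb na nb ra rb
    (Nat.sub_add_cancel (ra.trans ((Nat.le_add_right _ _).trans (Nat.le_add_left _ _))))
    (Nat.sub_add_cancel (rb.trans ((Nat.le_add_right _ _).trans (Nat.le_add_left _ _)))) ?_ H
  · obtain ⟨rfl, rfl, rfl, rfl, rfl, rfl, rfl, rfl, rfl, rfl, rfl⟩ := hs h
    exact ⟨rfl, rfl, rfl, rfl, rfl, rfl, rfl, rfl, rfl, rfl, rfl, rfl⟩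
  · exact le_slot _ _ _

theorem lt_cells (a : ℕ) : a < 16 * Nat.add (Nat.div a 16) 1 := by
  change a < 16 * (a / 16 + 1)
  omega

theorem core_ok {same : Bool} {N t cF bA cA zA eA bB cB zB eB P q wp wq u0 u1 u2 u3 v0 v1 v2 v3
    m0 m1 m2 m3 : ℕ} {k : ℕ → ℕ → Bool} {s : ℝ}
    (hs : same = true → bB = bA ∧ cB = cA ∧ zB = zA ∧ eB = eA ∧ v0 = u0 ∧ v1 = u1 ∧ v2 = u2 ∧
      v3 = u3)
    (hu : W4 (RU N t) eA u0 u1 u2 u3) (hv : W4 (RU N t) eB v0 v1 v2 v3)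
    (hm : W4 (RM N s P) q m0 m1 m2 m3) (hq : 0 < wq)
    (H : core same N t cF bA cA zA eA bB cB zB eB P q wp wq u0 u1 u2 u3 v0 v1 v2 v3 m0 m1 m2 m3
      k = true) :
    ∃ x y : ℕ, k x y = true ∧ wp / wq * hank s t bA eA (cA, zA) bB eB (cB, zB) P q ≤ x - y := by
  rw [core, strict_eq, strict_eq, strict_eq, strict_eq, strict_eq, strict_eq] at H
  refine cor3_ok (fun h => ?_) hu hv hm hq (bet_ok _ _ _) (bet_ok _ _ _) (lt_cells _) (lt_cells _) H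
  obtain ⟨rfl, rfl, rfl, rfl, rfl, rfl, rfl, rfl⟩ := hs h
  exact ⟨rfl, rfl, rfl, rfl, rfl, rfl, rfl, rfl, rfl, rfl, rfl⟩

/-- The term of the degree `2 i + 2`. -/
noncomputable def term (s : ℝ) (t bA a0 bB b0 q i : ℕ) (pA pB : ℕ × ℕ) : ℝ :=
  (4 * ((2 * i + 2) * (2 * i + 3)) : ℕ) / (4 * i + 5 : ℕ)
    * hank s t bA (4 * i + a0) pA bB (4 * i + b0) pB (8 * i + (t + 14)) q

theorem loop_ok {same : Bool} {N t cF bA a0 bB b0 q i0 Rp Rn : ℕ} {s : ℝ} (dA dB : ℕ × ℕ) :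
    ∀ {n : ℕ} {A B : List (ℕ × ℕ)} {i u0 u1 u2 u3 v0 v1 v2 v3 m0 m1 m2 m3 x y : ℕ},
    (same = true → bB = bA ∧ b0 = a0 ∧ B = A ∧ v0 = u0 ∧ v1 = u1 ∧ v2 = u2 ∧ v3 = u3) →
    W4 (RU N t) (4 * i + a0) u0 u1 u2 u3 → W4 (RU N t) (4 * i + b0) v0 v1 v2 v3 →
    W4 (RM N s (8 * i + (t + 14))) q m0 m1 m2 m3 →
    loop same N t cF bA a0 bB b0 q i0 Rp Rn n A B i u0 u1 u2 u3 v0 v1 v2 v3 m0 m1 m2 m3 x y = true →
    (x : ℝ) - y + ∑ j ∈ range n, (if i0 ≤ i + j then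
      term s t bA a0 bB b0 q (i + j) (A.getD j dA) (B.getD j dB) else 0) ≤ Rp - Rn
  | 0, A, B, i, u0, u1, u2, u3, v0, v1, v2, v3, m0, m1, m2, m3, x, y, _, _, _, _, H => by
    have h1 : x + Rn ≤ y + Rp := Nat.le_of_ble_eq_true H
    have h2 : (x : ℝ) + Rn ≤ y + Rp := by exact_mod_cast h1
    rw [sum_range_zero]
    linarith
  | n + 1, [], B, i, u0, u1, u2, u3, v0, v1, v2, v3, m0, m1, m2, m3, x, y, _, _, _, _, H => by
    cases H
  | n + 1, _ :: _, [], i, u0, u1, u2, u3, v0, v1, v2, v3, m0, m1, m2, m3, x, y, _, _, _, _, H => by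
    cases H
  | n + 1, (cA, zA) :: A, (cB, zB) :: B, i, u0, u1, u2, u3, v0, v1, v2, v3, m0, m1, m2, m3, x, y,
      hs, hu, hv, hm, H => by
    have ih := fun x y => loop_ok (same := same) (cF := cF) (bA := bA) (bB := bB) (i0 := i0)
      (Rp := Rp) (Rn := Rn) dA dB (n := n) (A := A) (B := B) (i := i + 1) (x := x) (y := y)
      (fun h => by
        obtain ⟨h1, h2, h3, h4, h5, h6, h7⟩ := hs h
        rw [h2, h4, h5, h6, h7]
        exact ⟨h1, rfl, (List.cons.inj h3).2, rfl, rfl, rfl, rfl⟩)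
      (show 4 * i + a0 + 4 = 4 * (i + 1) + a0 by ring ▸ hu.stepU)
      (show 4 * i + b0 + 4 = 4 * (i + 1) + b0 by ring ▸ hv.stepU)
      (show 8 * i + (t + 14) + 4 + 4 = 8 * (i + 1) + (t + 14) by ring ▸ hm.stepP.stepP)
    rw [sum_range_succ']
    simp only [List.getD_cons_succ, List.getD_cons_zero, add_zero, ← add_assoc i, add_right_comm i _ 1]
    by_cases h : i0 ≤ i
    · have hb : Nat.ble i0 i = true := Nat.ble_eq_true_of_le h
      have H' : cnd (Nat.ble i0 i) _ _ = true := H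
      rw [hb] at H'
      obtain ⟨x', y', H2, H3⟩ := core_ok (s := s) (fun h => by
        obtain ⟨h1, h2, h3, h4, h5, h6, h7⟩ := hs h
        have h8 := Prod.mk.inj (List.cons.inj h3).1
        exact ⟨h1, h8.1, h8.2, by rw [h2], h4, h5, h6, h7⟩) hu hv hm (Nat.succ_pos _) H'
      have := ih (x + x') (y + y') H2
      have H4 : term s t bA a0 bB b0 q i (cA, zA) (cB, zB) ≤ x' - y' := H3
      rw [if_pos h]
      rw [Nat.cast_add, Nat.cast_add] at this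
      linarith
    · have hb : Nat.ble i0 i = false := by
        rw [← Bool.not_eq_true, Nat.ble_eq]; exact h
      have H' : cnd (Nat.ble i0 i) _ _ = true := H
      rw [hb] at H'
      have := ih _ _ H'
      rw [if_neg h]
      linarith

theorem uLo_ok {N t m : ℕ} : ∃ u, ∀ {k : ℕ → Bool}, uLo N t m k = true →
    RU N t m u ∧ k u = true := by
  refine ⟨gLo (m + t) * 2 ^ N / (gLo m + gEr m), fun {k} H => ?_⟩
  simp only [uLo, strict_eq, bnd_iff, Nat.ble_eq, Nat.add_eq, Nat.mul_eq, Nat.sub_eq, shl_eq,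
    one_mul] at H
  obtain ⟨⟨⟨h1, h2⟩, h3, h4⟩, H⟩ := H
  have E := (enc_gq (m := m + t) (by omega)).div' (enc_gq (m := m) (by omega)) h1
    (Nat.div_mul_le_self _ _) h4
  refine ⟨⟨by omega, h3, E.1, fun _ => ?_⟩, H⟩
  have a1 : (2 : ℝ) ^ (N - 1) ≤ (gLo (m + t) * 2 ^ N / (gLo m + gEr m) : ℕ) := by exact_mod_cast h3
  have a2 : (2 : ℝ) ≤ m := by exact_mod_cast h2
  have a3 := mul_le_mul_of_nonneg_left E.2 (show (0 : ℝ) ≤ 2 ^ (N - 1) by positivity)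
  have a4 := mul_le_mul a1 a2 (by norm_num) (Nat.cast_nonneg _)
  rw [Nat.cast_ofNat] at a3
  rw [ug]
  linarith

theorem enc_three {M D N A a B b C d c : ℕ} {x y z s : ℝ} (hD : D = M + M) (hx : Enc M x A a)
    (hy : Enc M y B b) (hs : Enc M s c 1) (hz : Enc M z C d) (h1 : 1 ≤ C)
    (h : (A + a) * (B + b) * (c + 1) * 2 ^ N
      ≤ (A * B * c * 2 ^ N / ((C + d) * 2 ^ D) + 2) * (C * 2 ^ D)) :
    Enc N (x * y * s / z) (A * B * c * 2 ^ N / ((C + d) * 2 ^ D)) 2 := by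
  subst hD
  refine ((hx.mul' hy).mul' hs).div' (add_comm M (M + M) ▸ hz.more (M + M)) (by positivity)
    (by rw [← add_mul]; exact Nat.div_mul_le_self _ _) ?_
  have a1 : A * B ≤ (A + a) * (B + b) := Nat.mul_le_mul (by omega) (by omega)
  rw [Nat.add_sub_cancel' a1, Nat.add_sub_cancel' (Nat.mul_le_mul a1 (by omega))]
  exact h

theorem mLo_ok {N D c P q : ℕ} {s : ℝ} {k : ℕ → Bool} (hs : Enc 3072 s c 1)
    (hD : D = 3072 + 3072) (H : mLo N D c P q k = true) : ∃ u, RM N s P q u ∧ k u = true := by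
  simp only [mLo, strict_eq, bnd_iff, Nat.ble_eq, Nat.add_eq, Nat.mul_eq, shl_eq, one_mul] at H
  obtain ⟨⟨⟨h1, h2, h3⟩, h4, h5⟩, H⟩ := H
  have E := enc_three hD (enc_gq h2) (enc_gq h3) hs (enc_gq (m := P + q) (by omega))
    h1 h5
  have e : s * bt P q = gq P * gq q * s / gq (P + q) := by rw [bt]; ring
  have a1 : (2 : ℝ) ≤ (P + q : ℕ) := by exact_mod_cast (by omega)
  refine ⟨_, ⟨h2, h3, h4, e ▸ E.1, e ▸ E.2.trans ?_⟩, H⟩
  rw [Nat.cast_ofNat]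
  exact add_le_add_right a1 _

theorem enc_one : Enc 3072 1 cOne 1 :=
  (Enc.one 3072).mono (by decide +kernel) (by decide +kernel)

theorem job_ok {same : Bool} {N t cF bA a0 bB b0 q c i0 n Rp Rn : ℕ} {A B : List (ℕ × ℕ)} {s : ℝ}
    (dA dB : ℕ × ℕ) (hs : Enc 3072 s c 1) (h : same = true → bB = bA ∧ b0 = a0 ∧ B = A)
    (H : job same N t cF bA a0 bB b0 q c i0 n Rp Rn A B = true) :
    ∑ i ∈ Ico i0 n, term s t bA a0 bB b0 q i (A.getD i dA) (B.getD i dB) ≤ Rp - Rn := by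
  choose u hu using fun m => uLo_ok (N := N) (t := t) (m := m)
  obtain ⟨a1, H⟩ := hu _ H
  obtain ⟨a2, H⟩ := hu _ H
  obtain ⟨a3, H⟩ := hu _ H
  obtain ⟨a4, H⟩ := hu _ H
  obtain ⟨b1, H⟩ := hu _ H
  obtain ⟨b2, H⟩ := hu _ H
  obtain ⟨b3, H⟩ := hu _ H
  obtain ⟨b4, H⟩ := hu _ H
  obtain ⟨m0, c1, H⟩ := mLo_ok hs rfl H
  obtain ⟨m1, c2, H⟩ := mLo_ok hs rfl H
  obtain ⟨m2, c3, H⟩ := mLo_ok hs rfl H
  obtain ⟨m3, c4, H⟩ := mLo_ok hs rfl H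
  have := loop_ok (s := s) dA dB (fun h' => by
      obtain ⟨h1, rfl, h3⟩ := h h'
      exact ⟨h1, rfl, h3, rfl, rfl, rfl, rfl⟩)
    (by rw [mul_zero, zero_add]; exact ⟨a1, a2, a3, a4⟩)
    (by rw [mul_zero, zero_add]; exact ⟨b1, b2, b3, b4⟩)
    (by rw [mul_zero, zero_add]; exact ⟨c1, c2, c3, c4⟩) H
  simp only [Nat.cast_zero, sub_zero, zero_add, ← sum_filter] at this
  rwa [show Ico i0 n = (range n).filter fun j => i0 ≤ j by ext; simp [and_comm]]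

end Pool.Agent.Lib.Dy
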