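import Pool.Agent.Lib.Dy.Gam
import Pool.Agent.Lib.Dy.HkCl

/-!
Approximations of quotients of values of the Gamma function along recurrences, and convolutions.
-/

namespace Pool.Agent.Lib.Dy

open Finset Pool.Agent.Lib.KLA Pool.Agent.Lib.KTab

/-- The weights. -/
noncomputable def ug (t m : ℕ) : ℝ := gq (m + t) / gq m

/-- The moments. -/
noncomputable def bt (P q : ℕ) : ℝ := gq P * gq q / gq (P + q)

theorem ug_add_four (t : ℕ) {m : ℕ} (hm : 0 < m) : ug t (m + 4) = ug t m * (m + t : ℕ) / m := by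
  have h1 := gq_pos hm
  have h2 : (0 : ℝ) < m := by exact_mod_cast hm
  rw [ug, ug, add_right_comm, gq_add_four (by omega), gq_add_four hm]
  field_simp

theorem bt_right {P q : ℕ} (hq : 0 < q) : bt P (q + 4) = bt P q * q / (P + q : ℕ) := by
  have h1 := gq_pos (m := P + q) (by omega)
  have h2 : (0 : ℝ) < (P + q : ℕ) := by exact_mod_cast (by omega : 0 < P + q)
  rw [bt, bt, ← add_assoc, gq_add_four (m := P + q) (by omega), gq_add_four hq]
  field_simp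

theorem bt_left {P q : ℕ} (hP : 0 < P) : bt (P + 4) q = bt P q * P / (P + q : ℕ) := by
  have h1 := gq_pos (m := P + q) (by omega)
  have h2 : (0 : ℝ) < (P + q : ℕ) := by exact_mod_cast (by omega : 0 < P + q)
  rw [bt, bt, add_right_comm, gq_add_four (m := P + q) (by omega), gq_add_four hP]
  field_simp

theorem nx_le (p q u : ℕ) : (nx p q u : ℝ) ≤ u * p / q := by
  refine Nat.cast_div_le.trans (le_of_eq ?_)
  rw [Nat.mul_eq]; push_cast; rfl

theorem le_nx_add {q : ℕ} (hq : 0 < q) (p u : ℕ) : (u : ℝ) * p / q ≤ nx p q u + 1 := by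
  rw [div_le_iff₀ (by exact_mod_cast hq)]
  have h1 := (Nat.lt_div_mul_add (a := u * p) hq).le
  have h2 : u * p ≤ (nx p q u + 1) * q := by rw [add_mul, one_mul]; exact h1
  exact_mod_cast h2

/-- `A` approximates `2 ^ N * ug t m` from below. -/
def RU (N t m A : ℕ) : Prop := 0 < m ∧ 2 ^ (N - 1) ≤ A ∧ (A : ℝ) ≤ 2 ^ N * ug t m ∧
  (m ≤ 2 ^ (N - 1) → 2 ^ (N - 1) * (2 ^ N * ug t m) ≤ A * (2 ^ (N - 1) + m))

theorem RU.step {N t m A : ℕ} (h : RU N t m A) : RU N t (m + 4) (nx (m + t) m A) := by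
  obtain ⟨h0, h1, h2, h3⟩ := h
  have a1 := h1.trans (le_nx (p := m + t) h0 (by omega))
  have hm : (0 : ℝ) < m := by exact_mod_cast h0
  have hr : (0 : ℝ) ≤ (m + t : ℕ) / m := by positivity
  refine ⟨by omega, a1, (nx_le _ _ _).trans ?_, fun h4 => ?_⟩
  · rw [ug_add_four t h0, mul_div_assoc, mul_div_assoc, ← mul_assoc]
    exact mul_le_mul_of_nonneg_right h2 hr
  · have a2 := mul_le_mul_of_nonneg_right (h3 (by omega)) hr
    have a3 := le_nx_add h0 (m + t) A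
    have a4 : (2 : ℝ) ^ (N - 1) ≤ nx (m + t) m A := by exact_mod_cast a1
    have a5 : (m : ℝ) + 4 ≤ 2 ^ (N - 1) := by exact_mod_cast h4
    have a6 := mul_le_mul_of_nonneg_right a3 (show (0 : ℝ) ≤ 2 ^ (N - 1) + m by positivity)
    rw [ug_add_four t h0]
    push_cast at a2 a6 ⊢
    calc (2 : ℝ) ^ (N - 1) * (2 ^ N * (ug t m * (m + t) / m))
        = 2 ^ (N - 1) * (2 ^ N * ug t m) * ((m + t) / m) := by ring
      _ ≤ A * (m + t) / m * (2 ^ (N - 1) + m) := a2.trans (le_of_eq (by ring))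
      _ ≤ _ := a6.trans (by nlinarith)

/-- `A` approximates `2 ^ N * s * bt P q` from below. -/
def RM (N : ℕ) (s : ℝ) (P q A : ℕ) : Prop := 0 < P ∧ 0 < q ∧ A ≤ 2 ^ (N + 1) ∧
  (A : ℝ) ≤ 2 ^ N * (s * bt P q) ∧ 2 ^ N * (s * bt P q) ≤ A + (P + q : ℕ)

theorem contr {A a b c : ℕ} {x : ℝ} (hb : 0 < b) (hab : a ≤ b) (h1 : (A : ℝ) ≤ x)
    (h2 : x ≤ A + c) : nx a b A ≤ A ∧ (nx a b A : ℝ) ≤ x * a / b ∧ x * a / b ≤ nx a b A + c + 1 := by
  have hb' : (0 : ℝ) < b := by exact_mod_cast hb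
  have hab' : (a : ℝ) ≤ b := by exact_mod_cast hab
  refine ⟨Nat.div_le_of_le_mul (by rw [Nat.mul_eq, mul_comm]; exact Nat.mul_le_mul_right A hab),
    (nx_le _ _ _).trans (by gcongr), ?_⟩
  have a1 := le_nx_add hb a A
  have a2 : (c : ℝ) * a / b ≤ c := by
    rw [div_le_iff₀ hb']; gcongr
  calc x * a / b ≤ (A + c) * a / b := by gcongr
    _ = A * a / b + c * a / b := by ring
    _ ≤ _ := by linarith

theorem RM.right {N P q A : ℕ} {s : ℝ} (h : RM N s P q A) : RM N s P (q + 4) (nx q (P + q) A) := by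
  obtain ⟨h0, h1, h2, h3, h4⟩ := h
  obtain ⟨a1, a2, a3⟩ := contr (a := q) (b := P + q) (by omega) (by omega) h3 h4
  have e : 2 ^ N * (s * bt P (q + 4)) = 2 ^ N * (s * bt P q) * q / (P + q : ℕ) := by
    rw [bt_right h1]; ring
  refine ⟨h0, by omega, a1.trans h2, e ▸ a2, e ▸ a3.trans ?_⟩
  push_cast; linarith

theorem RM.left {N P q A : ℕ} {s : ℝ} (h : RM N s P q A) : RM N s (P + 4) q (nx P (P + q) A) := by
  obtain ⟨h0, h1, h2, h3, h4⟩ := h
  obtain ⟨a1, a2, a3⟩ := contr (a := P) (b := P + q) (by omega) (by omega) h3 h4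
  have e : 2 ^ N * (s * bt (P + 4) q) = 2 ^ N * (s * bt P q) * P / (P + q : ℕ) := by
    rw [bt_left h0]; ring
  refine ⟨by omega, h1, a1.trans h2, e ▸ a2, e ▸ a3.trans ?_⟩
  push_cast; linarith

/-- A property of four consecutive values. -/
def W4 (R : ℕ → ℕ → Prop) (m u0 u1 u2 u3 : ℕ) : Prop :=
  R m u0 ∧ R (m + 1) u1 ∧ R (m + 2) u2 ∧ R (m + 3) u3

variable {N t e P q u0 u1 u2 u3 : ℕ} {s : ℝ}

theorem W4.ru (h : W4 (RU N t) e u0 u1 u2 u3) :
    ∀ j, RU N t (e + j) (sq (e + t) e u0 u1 u2 u3 j) :=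
  sq_ind (P := fun j a => RU N t (e + j) a) h.1 h.2.1 h.2.2.1 h.2.2.2 fun i a ha => by
    have := ha.step
    rwa [add_right_comm e i t] at this

theorem W4.rm (h : W4 (RM N s P) q u0 u1 u2 u3) :
    ∀ j, RM N s P (q + j) (sq q (P + q) u0 u1 u2 u3 j) :=
  sq_ind (P := fun j a => RM N s P (q + j) a) h.1 h.2.1 h.2.2.1 h.2.2.2 fun i a ha => by
    have := ha.right
    rwa [← add_assoc P q i] at this

theorem W4.stepU (h : W4 (RU N t) e u0 u1 u2 u3) : W4 (RU N t) (e + 4) (nx (e + t) e u0)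
    (nx (e + t + 1) (e + 1) u1) (nx (e + t + 2) (e + 2) u2) (nx (e + t + 3) (e + 3) u3) :=
  ⟨h.ru 4, h.ru 5, h.ru 6, h.ru 7⟩

theorem W4.stepP (h : W4 (RM N s P) q u0 u1 u2 u3) : W4 (RM N s (P + 4)) q (nx P (P + q) u0)
    (nx P (P + q + 1) u1) (nx P (P + q + 2) u2) (nx P (P + q + 3) u3) :=
  ⟨h.1.left, h.2.1.left, h.2.2.1.left, h.2.2.2.left⟩

theorem RU.err {m A w ub r x m' : ℕ} {c : ℤ} (h : RU N t m A) (hA : A ≤ 2 ^ (N + ub))
    (hc : |c| ≤ (2 ^ w : ℕ)) (hr : r ≤ N) (hx : x + r = w + (N + ub)) (hm : m ≤ m')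
    (hm' : m' ≤ 2 ^ (N - 1)) : |c * A / 2 ^ r| ≤ (2 ^ x : ℕ) ∧
      |2 ^ (N - r) * (c * ug t m) - (c * A / 2 ^ r : ℤ)| ≤ erx w ub r m' := by
  constructor
  · have a1 : |c * A| ≤ 2 ^ x * 2 ^ r := by
      rw [abs_mul, ← pow_add, hx, pow_add, Nat.abs_cast]
      exact mul_le_mul (by exact_mod_cast hc) (by exact_mod_cast hA) (by positivity) (by positivity)
    rw [abs_le] at a1 ⊢
    push_cast
    exact ⟨(Int.le_ediv_iff_mul_le (by positivity)).2 (by linarith [a1.1]),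
      Int.ediv_le_of_le_mul (by positivity) a1.2⟩
  · obtain ⟨-, -, h2, h3⟩ := h
    have h4 := h3 (hm.trans hm')
    have hL : (0 : ℝ) < 2 ^ (N - 1) := by positivity
    have hA' : (A : ℝ) ≤ 2 ^ (N - 1) * 2 ^ (ub + 1) := by
      rw [← pow_add]
      exact le_trans (by exact_mod_cast hA) (pow_le_pow_right₀ one_le_two (by omega))
    have hm2 : (m : ℝ) ≤ m' := by exact_mod_cast hm
    have a1 : 2 ^ N * ug t m - A ≤ 2 ^ (ub + 1) * m' := by
      refine le_of_mul_le_mul_left ?_ hL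
      have := mul_le_mul hA' hm2 (Nat.cast_nonneg _) (by positivity)
      linarith
    have a2 := ediv_err (c * A) r
    have a3 := shr_real (Nat.shiftLeft m' (w + ub + 1)) r
    have a4 : |(c : ℝ) * (2 ^ N * ug t m - A) / 2 ^ r| ≤ (Nat.shiftLeft m' (w + ub + 1) : ℕ) / 2 ^ r := by
      rw [abs_div, abs_mul, abs_of_nonneg (sub_nonneg.2 h2), abs_of_pos (a := (2 : ℝ) ^ r)
        (by positivity), shl_eq]
      refine div_le_div_of_nonneg_right ?_ (by positivity)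
      refine (mul_le_mul (show |(c : ℝ)| ≤ 2 ^ w by exact_mod_cast hc) a1 (sub_nonneg.2 h2)
        (by positivity)).trans (le_of_eq ?_)
      push_cast; ring
    have e : (2 : ℝ) ^ (N - r) * (c * ug t m)
        = c * (2 ^ N * ug t m - A) / 2 ^ r + (c * A : ℤ) / 2 ^ r := by
      obtain ⟨d, rfl⟩ : ∃ d, N = d + r := ⟨N - r, by omega⟩
      rw [Nat.add_sub_cancel, pow_add]
      push_cast
      field_simp
      ring
    have e' : (erx w ub r m' : ℝ) = Nat.shiftRight (Nat.shiftLeft m' (w + ub + 1)) r + 2 := by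
      rw [erx, Nat.add_eq]; push_cast; rfl
    rw [e, e']
    rw [abs_le] at a2 a4 ⊢
    split_ifs at a3 <;> constructor <;> linarith [a2.1, a2.2, a4.1, a4.2]

theorem err_two {X Y a b α β E F : ℝ} (h1 : |X| ≤ α) (h2 : |a - X| ≤ E) (h3 : |Y| ≤ β)
    (h4 : |b - Y| ≤ F) : |a * b - X * Y| ≤ (α + E) * (β + F) - α * β := by
  have e : a * b - X * Y = X * (b - Y) + (a - X) * Y + (a - X) * (b - Y) := by ring
  rw [e]
  refine (abs_add_three _ _ _).trans ?_
  rw [abs_mul, abs_mul, abs_mul]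
  have hα := (abs_nonneg _).trans h1
  have hE := (abs_nonneg _).trans h2
  have a1 := mul_le_mul h1 h4 (abs_nonneg _) hα
  have a2 := mul_le_mul h2 h3 (abs_nonneg _) hE
  have a3 := mul_le_mul h2 h4 (abs_nonneg _) hE
  linarith

theorem err_three {X Y Z a b c α β γ E F G : ℝ} (h1 : |X| ≤ α) (h2 : |a - X| ≤ E) (h3 : |Y| ≤ β)
    (h4 : |b - Y| ≤ F) (h5 : |Z| ≤ γ) (h6 : |c - Z| ≤ G) :
    a * b * c ≤ X * Y * Z + ((α + E) * (β + F) * (γ + G) - α * β * γ) := by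
  have a1 : |X * Y| ≤ α * β := by
    rw [abs_mul]; exact mul_le_mul h1 h3 (abs_nonneg _) ((abs_nonneg _).trans h1)
  have a2 := (abs_le.1 (err_two a1 (err_two h1 h2 h3 h4) h5 h6)).2
  linarith

/-- Convolution. -/
def cv (n n' : ℕ) (X Y : ℕ → ℤ) (i : ℕ) : ℤ :=
  ∑ j ∈ range n, ∑ k ∈ range n', if j + k = i then X j * Y k else 0

theorem sum_cv (n n' : ℕ) (X Y F : ℕ → ℤ) : ∑ i ∈ range (n + n'), cv n n' X Y i * F i
    = ∑ j ∈ range n, ∑ k ∈ range n', X j * Y k * F (j + k) := by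
  simp only [cv, sum_mul]
  rw [sum_comm]
  refine sum_congr rfl fun j hj => ?_
  rw [sum_comm]
  refine sum_congr rfl fun k hk => ?_
  simp only [ite_mul, zero_mul]
  rw [sum_ite_eq, if_pos (by have := mem_range.1 hj; have := mem_range.1 hk; rw [mem_range]; omega)]

theorem pk_mul_pk (S n n' : ℕ) (X Y : ℕ → ℤ) :
    pk S n X * pk S n' Y = pk S (n + n') (cv n n' X Y) := by
  rw [pk, pk, pk, sum_cv, sum_mul_sum]
  exact sum_congr rfl fun j _ => sum_congr rfl fun k _ => by rw [mul_add, pow_add]; ring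

theorem abs_cv {n n' : ℕ} {X Y : ℕ → ℤ} {α β : ℕ} (h1 : ∀ j < n, |X j| ≤ α)
    (h2 : ∀ k < n', |Y k| ≤ β) (i : ℕ) : |cv n n' X Y i| ≤ (n * (α * β) : ℕ) := by
  refine (abs_sum_le_sum_abs _ _).trans ((sum_le_card_nsmul _ _ ((α : ℤ) * β) fun j hj => ?_).trans
    (by simp))
  by_cases h : ∃ k ∈ range n', j + k = i
  · obtain ⟨k, hk, rfl⟩ := h
    rw [sum_eq_single_of_mem k hk fun k' _ h' => if_neg (by omega), if_pos rfl, abs_mul]
    exact mul_le_mul (h1 j (mem_range.1 hj)) (h2 k (mem_range.1 hk)) (abs_nonneg _) (by positivity)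
  · rw [sum_eq_zero fun k hk => if_neg fun h' => h ⟨k, hk, h'⟩, abs_zero]
    positivity

end Pool.Agent.Lib.Dy
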